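import Mathlib

set_option autoImplicit false

open Filter Topology

namespace Pool.Agent.Helper640.PiBasis

section NormPart

variable {V : Type*} [NormedAddCommGroup V] [InnerProductSpace ℝ V]

/-- Coefficients. -/
noncomputable def cc (i : ℕ) : ℝ := (1 / 8) ^ i / 16

theorem cc_pos (i : ℕ) : 0 < cc i := by unfold cc; positivity

theorem cc_summable : Summable cc := by
  unfold cc
  exact (summable_geometric_of_lt_one (by norm_num) (by norm_num)).div_const 16

theorem cc_tsum : ∑' i, cc i ≤ 1 / 8 := by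
  unfold cc
  rw [tsum_div_const, tsum_geometric_of_lt_one (by norm_num) (by norm_num)]
  norm_num

/-- Sum of coefficients over a finite set of indices above m. -/
theorem cc_tail (m : ℕ) (S : Finset ℕ) (hS : ∀ i ∈ S, m < i) : ∑ i ∈ S, cc i ≤ cc m / 7 := by
  have h1 : ∑ i ∈ S, cc i ≤ ∑' i, cc (i + (m + 1)) := by
    have h2 : ∑ i ∈ S, cc i = ∑ j ∈ S.image (fun i => i - (m + 1)), cc (j + (m + 1)) := by
      rw [Finset.sum_image]
      · apply Finset.sum_congr rfl
        intro i hi
        have := hS i hi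
        congr 1; omega
      · intro a ha b hb hab
        have h3 := hS a ha
        have h4 := hS b hb
        simp only at hab
        omega
    rw [h2]
    exact Summable.sum_le_tsum _ (fun i _ => (cc_pos _).le)
      ((summable_nat_add_iff (m + 1)).2 cc_summable)
  refine h1.trans ?_
  have h3 : ∀ i, cc (i + (m + 1)) = (1 / 8) ^ i * (cc m / 8) := by
    intro i; unfold cc; rw [pow_add, pow_succ]; ring
  simp_rw [h3]
  rw [tsum_mul_right, tsum_geometric_of_lt_one (by norm_num) (by norm_num)]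
  norm_num

/-- The assumptions on the family of operators. -/
structure Good (T : ℕ → V →L[ℝ] V) : Prop where
  symm : ∀ i x y, inner ℝ (T i x) y = inner ℝ x (T i y)
  bd : ∀ i x, |inner ℝ (T i x) x| ≤ 4 * ‖x‖ ^ 2

/-- The square of the new norm. -/
noncomputable def F (T : ℕ → V →L[ℝ] V) (x : V) : ℝ :=
  ‖x‖ ^ 2 + ∑' i, cc i * max (inner ℝ (T i x) x) 0

/-- Finite bilinear forms. -/
noncomputable def bS (T : ℕ → V →L[ℝ] V) (S : Finset ℕ) (x y : V) : ℝ :=
  inner ℝ x y + ∑ i ∈ S, cc i * inner ℝ (T i x) y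

variable {T : ℕ → V →L[ℝ] V}

theorem F_summable (hT : Good T) (x : V) :
    Summable (fun i => cc i * max (inner ℝ (T i x) x) 0) := by
  apply Summable.of_nonneg_of_le (f := fun i => cc i * (4 * ‖x‖ ^ 2))
  · intro i; have := cc_pos i; positivity
  · intro i
    apply mul_le_mul_of_nonneg_left _ (cc_pos i).le
    exact max_le ((le_abs_self _).trans (hT.bd i x)) (by positivity)
  · exact cc_summable.mul_right _

theorem F_ge (T : ℕ → V →L[ℝ] V) (x : V) : ‖x‖ ^ 2 ≤ F T x := by
  unfold F
  have : 0 ≤ ∑' i, cc i * max (inner ℝ (T i x) x) 0 :=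
    tsum_nonneg fun i => mul_nonneg (cc_pos i).le (le_max_right _ _)
  linarith

theorem F_nonneg (T : ℕ → V →L[ℝ] V) (x : V) : 0 ≤ F T x := (by positivity : (0:ℝ) ≤ ‖x‖ ^ 2).trans (F_ge T x)

theorem F_le (hT : Good T) (x : V) : F T x ≤ 2 * ‖x‖ ^ 2 := by
  unfold F
  have h1 : ∑' i, cc i * max (inner ℝ (T i x) x) 0 ≤ ∑' i, cc i * (4 * ‖x‖ ^ 2) := by
    apply Summable.tsum_le_tsum _ (F_summable hT x) (cc_summable.mul_right _)
    intro i
    apply mul_le_mul_of_nonneg_left _ (cc_pos i).le
    exact max_le ((le_abs_self _).trans (hT.bd i x)) (by positivity)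
  rw [tsum_mul_right] at h1
  have h2 := cc_tsum
  have h3 : (∑' i, cc i) * (4 * ‖x‖ ^ 2) ≤ 1 / 8 * (4 * ‖x‖ ^ 2) :=
    mul_le_mul_of_nonneg_right h2 (by positivity)
  nlinarith [sq_nonneg ‖x‖]

theorem bS_add_left (S : Finset ℕ) (x y z : V) : bS T S (x + y) z = bS T S x z + bS T S y z := by
  unfold bS
  simp only [map_add, inner_add_left, mul_add, Finset.sum_add_distrib]
  ring

theorem bS_smul_left (S : Finset ℕ) (r : ℝ) (x z : V) : bS T S (r • x) z = r * bS T S x z := by
  unfold bS
  simp only [map_smul, inner_smul_left, RCLike.conj_to_real, mul_add, Finset.mul_sum]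
  congr 1
  apply Finset.sum_congr rfl
  intro i _; ring

theorem bS_comm (hT : Good T) (S : Finset ℕ) (x y : V) : bS T S x y = bS T S y x := by
  unfold bS
  rw [real_inner_comm]
  congr 1
  apply Finset.sum_congr rfl
  intro i _
  rw [hT.symm, real_inner_comm]

theorem bS_add_right (hT : Good T) (S : Finset ℕ) (x y z : V) :
    bS T S x (y + z) = bS T S x y + bS T S x z := by
  rw [bS_comm hT, bS_add_left, bS_comm hT S y, bS_comm hT S z]

theorem bS_smul_right (hT : Good T) (S : Finset ℕ) (r : ℝ) (x z : V) :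
    bS T S x (r • z) = r * bS T S x z := by
  rw [bS_comm hT, bS_smul_left, bS_comm hT]

theorem bS_self_add (hT : Good T) (S : Finset ℕ) (x y : V) (t : ℝ) :
    bS T S (x + t • y) (x + t • y) = bS T S x x + 2 * t * bS T S x y + t ^ 2 * bS T S y y := by
  rw [bS_add_left, bS_add_right hT, bS_add_right hT, bS_smul_left, bS_smul_left,
    bS_smul_right hT, bS_smul_right hT, bS_comm hT S y x]
  ring

theorem bS_nonneg (hT : Good T) (S : Finset ℕ) (x : V) : 0 ≤ bS T S x x := by
  unfold bS
  have h1 : |∑ i ∈ S, cc i * inner ℝ (T i x) x| ≤ ∑ i ∈ S, cc i * (4 * ‖x‖ ^ 2) := by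
    refine (Finset.abs_sum_le_sum_abs _ _).trans ?_
    apply Finset.sum_le_sum
    intro i _
    rw [abs_mul, abs_of_pos (cc_pos i)]
    exact mul_le_mul_of_nonneg_left (hT.bd i x) (cc_pos i).le
  rw [← Finset.sum_mul] at h1
  have h2 : ∑ i ∈ S, cc i ≤ 1 / 8 :=
    (Summable.sum_le_tsum S (fun i _ => (cc_pos i).le) cc_summable).trans cc_tsum
  have h3 : (∑ i ∈ S, cc i) * (4 * ‖x‖ ^ 2) ≤ 1 / 8 * (4 * ‖x‖ ^ 2) :=
    mul_le_mul_of_nonneg_right h2 (by positivity)
  rw [real_inner_self_eq_norm_sq]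
  have h4 := neg_abs_le (∑ i ∈ S, cc i * inner ℝ (T i x) x)
  nlinarith [sq_nonneg ‖x‖]

theorem bS_le_F (hT : Good T) (S : Finset ℕ) (x : V) : bS T S x x ≤ F T x := by
  unfold bS F
  rw [real_inner_self_eq_norm_sq]
  have h1 : ∑ i ∈ S, cc i * inner ℝ (T i x) x ≤ ∑ i ∈ S, cc i * max (inner ℝ (T i x) x) 0 := by
    apply Finset.sum_le_sum
    intro i _
    exact mul_le_mul_of_nonneg_left (le_max_left _ _) (cc_pos i).le
  have h2 := Summable.sum_le_tsum S
    (fun i _ => mul_nonneg (cc_pos i).le (le_max_right (inner ℝ (T i x) x) 0)) (F_summable hT x)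
  linarith

theorem bS_cs (hT : Good T) (S : Finset ℕ) (x y : V) :
    bS T S x y ≤ Real.sqrt (F T x) * Real.sqrt (F T y) := by
  have h1 : ∀ t : ℝ, 0 ≤ bS T S y y * (t * t) + (2 * bS T S x y) * t + bS T S x x := by
    intro t
    have h2 := bS_nonneg hT S (x + t • y)
    rw [bS_self_add hT] at h2
    nlinarith
  have h3 := discrim_le_zero h1
  unfold discrim at h3
  have h4 : (bS T S x y) ^ 2 ≤ bS T S x x * bS T S y y := by nlinarith
  have h5 : (bS T S x y) ^ 2 ≤ F T x * F T y :=
    h4.trans (mul_le_mul (bS_le_F hT S x) (bS_le_F hT S y) (bS_nonneg hT S y) (F_nonneg T x))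
  rw [← Real.sqrt_mul (F_nonneg T x)]
  exact Real.le_sqrt_of_sq_le h5

/-- The triangle inequality. -/
theorem F_triangle (hT : Good T) (x y : V) :
    Real.sqrt (F T (x + y)) ≤ Real.sqrt (F T x) + Real.sqrt (F T y) := by
  have hx := F_nonneg T x
  have hy := F_nonneg T y
  apply Real.sqrt_le_iff.2
  refine ⟨by positivity, ?_⟩
  -- partial sums
  have h1 : Tendsto (fun n => ‖x + y‖ ^ 2 + ∑ i ∈ Finset.range n,
      cc i * max (inner ℝ (T i (x + y)) (x + y)) 0) atTop (𝓝 (F T (x + y))) :=
    (F_summable hT (x + y)).hasSum.tendsto_sum_nat.const_add _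
  apply le_of_tendsto' h1
  intro n
  set S := (Finset.range n).filter (fun i => 0 < inner ℝ (T i (x + y)) (x + y)) with hS
  have h2 : ‖x + y‖ ^ 2 + ∑ i ∈ Finset.range n, cc i * max (inner ℝ (T i (x + y)) (x + y)) 0
      = bS T S (x + y) (x + y) := by
    unfold bS
    rw [real_inner_self_eq_norm_sq, hS, Finset.sum_filter]
    congr 1
    apply Finset.sum_congr rfl
    intro i _
    split_ifs with h
    · rw [max_eq_left h.le]
    · rw [max_eq_right (not_lt.1 h), mul_zero]
  rw [h2]
  have h3 := bS_self_add hT S x y 1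
  rw [one_smul] at h3
  rw [h3]
  have h4 := bS_cs hT S x y
  have h5 := bS_le_F hT S x
  have h6 := bS_le_F hT S y
  have h7 := Real.sq_sqrt hx
  have h8 := Real.sq_sqrt hy
  nlinarith

theorem F_smul (T : ℕ → V →L[ℝ] V) (r : ℝ) (x : V) : F T (r • x) = r ^ 2 * F T x := by
  unfold F
  rw [norm_smul, mul_pow, Real.norm_eq_abs, sq_abs, mul_add, ← tsum_mul_left]
  congr 1
  apply tsum_congr
  intro i
  rw [map_smul, inner_smul_left, inner_smul_right, RCLike.conj_to_real]
  have : r * (r * inner ℝ (T i x) x) = r ^ 2 * inner ℝ (T i x) x := by ring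
  rw [this]
  have h2 : max (r ^ 2 * inner ℝ (T i x) x) 0 = r ^ 2 * max (inner ℝ (T i x) x) 0 := by
    rw [mul_max_of_nonneg _ _ (sq_nonneg r), mul_zero]
  rw [h2]; ring

/-- Lemma A: first order condition for a contractive projection. -/
theorem lemmaA (hT : Good T) (P : V →L[ℝ] V)
    (hPc : ∀ x, F T (P x) ≤ F T x) (g : V) (hg : P g = g) (S : Finset ℕ)
    (hloc : ∀ᶠ v in 𝓝 g, F T v = bS T S v v) (w k : V) (hw : P w = w) (hk : P k = 0) :
    bS T S w k = 0 := by
  -- first claim: for v in the range, near g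
  have key : ∀ v, P v = v → (∀ᶠ u in 𝓝 v, F T u = bS T S u u) → bS T S v k = 0 := by
    intro v hv hu
    have h1 : ∀ᶠ t : ℝ in 𝓝 0, F T (v + t • k) = bS T S (v + t • k) (v + t • k) := by
      have h2 : Tendsto (fun t : ℝ => v + t • k) (𝓝 0) (𝓝 v) := by
        have : Continuous (fun t : ℝ => v + t • k) := by fun_prop
        have h3 := this.tendsto 0
        simpa using h3
      exact h2.eventually hu
    have h4 : F T v = bS T S v v := hu.self_of_nhds
    have h5 : ∀ᶠ t : ℝ in 𝓝 0, 0 ≤ 2 * t * bS T S v k + t ^ 2 * bS T S k k := by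
      filter_upwards [h1] with t ht
      have h6 := hPc (v + t • k)
      have h7 : P (v + t • k) = v := by rw [map_add, map_smul, hk, hv, smul_zero, add_zero]
      rw [h7, ht, bS_self_add hT, h4] at h6
      linarith
    obtain ⟨δ, hδ, h8⟩ := Metric.eventually_nhds_iff.1 h5
    by_contra hne
    set B := bS T S v k with hB
    set K := bS T S k k with hK
    have hK0 : 0 ≤ K := bS_nonneg hT S k
    -- choose t small of the opposite sign
    rcases lt_or_gt_of_ne hne with hB0 | hB0
    · -- B < 0, t > 0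
      set t := min (δ / 2) ((-B) / (K + 1)) with ht
      have ht0 : 0 < t := by
        apply lt_min (by linarith)
        apply div_pos <;> linarith
      have h9 := @h8 t (by
        rw [Real.dist_eq, sub_zero, abs_of_pos ht0]
        exact lt_of_le_of_lt (min_le_left _ _) (by linarith))
      have h10 : t * (K + 1) ≤ -B := by
        rw [← le_div_iff₀ (by linarith)]; exact min_le_right _ _
      nlinarith
    · set t := min (δ / 2) (B / (K + 1)) with ht
      have ht0 : 0 < t := by
        apply lt_min (by linarith)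
        apply div_pos <;> linarith
      have h9 := @h8 (-t) (by
        rw [Real.dist_eq, sub_zero, abs_neg, abs_of_pos ht0]
        exact lt_of_le_of_lt (min_le_left _ _) (by linarith))
      have h10 : t * (K + 1) ≤ B := by
        rw [← le_div_iff₀ (by linarith)]; exact min_le_right _ _
      nlinarith
  have h1 := key g hg hloc
  -- move to g + δ w
  have h2 : ∀ᶠ r : ℝ in 𝓝 0, ∀ᶠ u in 𝓝 (g + r • w), F T u = bS T S u u := by
    have h3 : Tendsto (fun r : ℝ => g + r • w) (𝓝 0) (𝓝 g) := by
      have : Continuous (fun t : ℝ => g + t • w) := by fun_prop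
      have h3 := this.tendsto 0
      simpa using h3
    exact h3.eventually (eventually_eventually_nhds.2 hloc)
  obtain ⟨δ, hδ, h8⟩ := Metric.eventually_nhds_iff.1 h2
  have h9 := @h8 (δ / 2) (by rw [Real.dist_eq, sub_zero, abs_of_pos (by linarith)]; linarith)
  have h10 := key (g + (δ / 2) • w) (by rw [map_add, map_smul, hg, hw]) h9
  rw [bS_add_left, h1, bS_smul_left, zero_add] at h10
  rcases mul_eq_zero.1 h10 with h | h
  · linarith
  · exact h

end NormPart

end Pool.Agent.Helper640.PiBasis
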