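import Pool.Agent.Helper640.Pi.E2

set_option autoImplicit false
set_option linter.deprecated false

open Filter Topology

namespace Pool.Agent.Helper640.PiBasis

section Renorm

/-- Type synonym used to change the norm. -/
def Ren (V : Type) (_N : V → ℝ) : Type := V

variable {𝕜 V : Type} [RCLike 𝕜] [NormedAddCommGroup V] [NormedSpace 𝕜 V] (N : V → ℝ)

noncomputable instance : AddCommGroup (Ren V N) := inferInstanceAs (AddCommGroup V)
noncomputable instance : Module 𝕜 (Ren V N) := inferInstanceAs (Module 𝕜 V)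
noncomputable instance : Norm (Ren V N) := ⟨N⟩

theorem ren_core (h0 : ∀ x, 0 ≤ N x) (hs : ∀ (c : 𝕜) x, N (c • x) = ‖c‖ * N x)
    (ht : ∀ x y, N (x + y) ≤ N x + N y) (hz : ∀ x, N x = 0 ↔ x = 0) :
    NormedSpace.Core 𝕜 (Ren V N) where
  norm_nonneg := h0
  norm_smul := hs
  norm_triangle := ht
  norm_eq_zero_iff := hz

theorem exists_renorm (h0 : ∀ x, 0 ≤ N x) (hs : ∀ (c : 𝕜) x, N (c • x) = ‖c‖ * N x)
    (ht : ∀ x y, N (x + y) ≤ N x + N y) (hz : ∀ x, N x = 0 ↔ x = 0) :
    ∃ (E : Type) (_ : NormedAddCommGroup E) (_ : NormedSpace 𝕜 E) (φ : E ≃ₗ[𝕜] V),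
      ∀ x, ‖x‖ = N (φ x) := by
  have core := ren_core (𝕜 := 𝕜) N h0 hs ht hz
  let i1 : NormedAddCommGroup (Ren V N) := NormedAddCommGroup.ofCore core
  let i2 : NormedSpace 𝕜 (Ren V N) := NormedSpace.ofCore core
  let φ : Ren V N ≃ₗ[𝕜] V :=
    { toFun := fun x => x
      map_add' := fun _ _ => rfl
      map_smul' := fun _ _ => rfl
      invFun := fun x => x
      left_inv := fun _ => rfl
      right_inv := fun _ => rfl }
  exact ⟨Ren V N, i1, i2, φ, fun x => rfl⟩

end Renorm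

/-- A sequence of operators forming a `Π_l`-basis. -/
structure Big (𝕜 : Type) [RCLike 𝕜] (E : Type) [NormedAddCommGroup E] [NormedSpace 𝕜 E] (l : ℝ)
    (u : ℕ → E →L[𝕜] E) : Prop where
  idem : ∀ n, (u n).comp (u n) = u n
  fin : ∀ n, FiniteDimensional 𝕜 (LinearMap.range (u n : E →ₗ[𝕜] E))
  tend : ∀ x, Tendsto (fun n => u n x) atTop (𝓝 x)
  norm_le : ∀ n, ‖u n‖ ≤ l

/-- Adding nested ranges. -/
structure Small (𝕜 : Type) [RCLike 𝕜] (E : Type) [NormedAddCommGroup E] [NormedSpace 𝕜 E] (l : ℝ)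
    (u : ℕ → E →L[𝕜] E) : Prop extends Big 𝕜 E l u where
  nested : ∀ m n, m ≤ n →
    LinearMap.range (u m : E →ₗ[𝕜] E) ≤ LinearMap.range (u n : E →ₗ[𝕜] E)

variable {𝕜 V : Type} [RCLike 𝕜] [NormedAddCommGroup V] [InnerProductSpace ℝ V]
  [CompleteSpace V] [NormedSpace 𝕜 V] [IsScalarTower ℝ 𝕜 V]

/-- real-linear operators commuting with scalars -/
def Hom (𝕜 : Type) {V : Type} [RCLike 𝕜] [NormedAddCommGroup V] [InnerProductSpace ℝ V]
  [NormedSpace 𝕜 V] (D : V →L[ℝ] V) : Prop := ∀ (c : 𝕜) x, D (c • x) = c • D x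

section HomLemmas
omit [CompleteSpace V] [IsScalarTower ℝ 𝕜 V]

theorem Hom.add {D D' : V →L[ℝ] V} (h : Hom 𝕜 D) (h' : Hom 𝕜 D') : Hom 𝕜 (D + D') := by
  intro c x
  rw [ContinuousLinearMap.add_apply, ContinuousLinearMap.add_apply, h c x, h' c x, smul_add]

theorem Hom.neg {D : V →L[ℝ] V} (h : Hom 𝕜 D) : Hom 𝕜 (-D) := by
  intro c x
  rw [ContinuousLinearMap.neg_apply, ContinuousLinearMap.neg_apply, h c x, smul_neg]

theorem Hom.sub {D D' : V →L[ℝ] V} (h : Hom 𝕜 D) (h' : Hom 𝕜 D') : Hom 𝕜 (D - D') := by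
  intro c x
  rw [ContinuousLinearMap.sub_apply, ContinuousLinearMap.sub_apply, h c x, h' c x, smul_sub]

theorem Hom.mul {D D' : V →L[ℝ] V} (h : Hom 𝕜 D) (h' : Hom 𝕜 D') : Hom 𝕜 (D * D') := by
  intro c x
  rw [ContinuousLinearMap.mul_apply, ContinuousLinearMap.mul_apply, h' c x, h c]

theorem Hom.one : Hom 𝕜 (1 : V →L[ℝ] V) := fun _ _ => rfl

end HomLemmas

section HomLemmas2
omit [CompleteSpace V]

theorem Hom.smul {D : V →L[ℝ] V} (h : Hom 𝕜 D) (r : ℝ) : Hom 𝕜 (r • D) := by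
  intro c x
  have key : ∀ y : V, r • y = (r : 𝕜) • y := by
    intro y
    rw [← smul_one_smul 𝕜 r y, RCLike.real_smul_eq_coe_mul, mul_one]
  rw [ContinuousLinearMap.smul_apply, ContinuousLinearMap.smul_apply, h c x, key, key,
    smul_comm]

end HomLemmas2

/-- The main theorem from the abstract data. -/
theorem main (S : Sys V) (p : Par) (hJ : Hom 𝕜 S.J) (hX : ∀ j, Hom 𝕜 (S.X j))
    (hZ : ∀ j, Hom 𝕜 (S.Z j)) (hQ : ∀ j, Hom 𝕜 (S.Q j))
    (hsc : ∀ (c : 𝕜) (x y : V), inner ℝ (c • x) (c • y) = ‖c‖ ^ 2 * inner ℝ x y) :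
    ∃ (E : Type) (_ : NormedAddCommGroup E) (_ : NormedSpace 𝕜 E), CompleteSpace E ∧
      (∃ u : ℕ → E →L[𝕜] E, Big 𝕜 E 1 u) ∧ ¬ ∃ u : ℕ → E →L[𝕜] E, Small 𝕜 E 1 u := by
  -- homogeneity of all operators
  have hN : ∀ k, Hom 𝕜 (S.N p k) := fun k => ((hZ k).smul _).add ((hX k).smul _)
  have hN' : ∀ k, Hom 𝕜 (S.N' p k) := fun k => ((hZ k).smul _).add ((hX k).smul _)
  have hPH : Hom 𝕜 S.PH := (Hom.one.add hJ).smul _
  have hPK : Hom 𝕜 S.PK := (Hom.one.sub hJ).smul _
  have hZt : ∀ k, Hom 𝕜 (S.Zt k) := by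
    intro k
    cases k with
    | zero => exact Hom.one.neg
    | succ k => exact hZ k
  have hA : ∀ i, Hom 𝕜 (S.A p i) := by
    intro i
    unfold Sys.A
    split_ifs
    · exact (hN _).sub (Hom.one.smul _)
    · exact (hZt _).mul ((hN' _).sub (Hom.one.smul _))
  have hB : ∀ i, Hom 𝕜 (S.B p i) := by
    intro i
    unfold Sys.B
    exact (((hA i).mul hPH).smul _).sub (((Hom.one.smul _).sub (hX i)).mul hPK)
  have hT : ∀ i, Hom 𝕜 (S.T p i) := by
    intro i
    match i with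
    | 0 => exact hJ
    | 1 => exact hJ.neg
    | (i + 2) => exact hB i
  have hP : ∀ m, Hom 𝕜 (S.P p m) := by
    intro m
    unfold Sys.P Sys.E
    exact (((hQ _).mul ((Hom.one.add (hN m)).smul _)).mul hPH).add ((hQ _).mul hPK)
  -- homogeneity of F
  have hnorm : ∀ (c : 𝕜) (x : V), ‖c • x‖ ^ 2 = ‖c‖ ^ 2 * ‖x‖ ^ 2 := by
    intro c x
    rw [← real_inner_self_eq_norm_sq, hsc, real_inner_self_eq_norm_sq]
  have hF : ∀ (c : 𝕜) x, F (S.T p) (c • x) = ‖c‖ ^ 2 * F (S.T p) x := by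
    intro c x
    unfold F
    rw [hnorm, mul_add, ← tsum_mul_left]
    congr 1
    apply tsum_congr
    intro i
    rw [hT i c x, hsc]
    have h2 : max (‖c‖ ^ 2 * inner ℝ (S.T p i x) x) 0 = ‖c‖ ^ 2 * max (inner ℝ (S.T p i x) x) 0 := by
      rw [mul_max_of_nonneg _ _ (sq_nonneg ‖c‖), mul_zero]
    rw [h2]; ring
  have hgood := S.good p
  obtain ⟨E, i1, i2, φ, hφ⟩ := exists_renorm (𝕜 := 𝕜) (fun x : V => Real.sqrt (F (S.T p) x))
    (fun x => Real.sqrt_nonneg _)
    (by
      intro c x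
      rw [hF, Real.sqrt_mul (sq_nonneg _), Real.sqrt_sq (norm_nonneg _)])
    (fun x y => F_triangle hgood x y)
    (by
      intro x
      rw [Real.sqrt_eq_zero (F_nonneg _ x)]
      constructor
      · intro h
        have := F_ge (S.T p) x
        rw [h] at this
        have h2 : ‖x‖ ^ 2 = 0 := le_antisymm this (sq_nonneg _)
        rwa [pow_eq_zero_iff two_ne_zero, norm_eq_zero] at h2
      · intro h
        have := F_le hgood x
        rw [h, norm_zero] at this
        have h3 := F_nonneg (S.T p) (0 : V)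
        rw [h]
        linarith)
  have b1 : ∀ x, ‖φ x‖ ≤ 1 * ‖x‖ := by
    intro x
    rw [one_mul, hφ]
    exact Real.le_sqrt_of_sq_le (F_ge _ _)
  have b2 : ∀ x, ‖φ.symm x‖ ≤ 2 * ‖x‖ := by
    intro x
    rw [hφ, LinearEquiv.apply_symm_apply]
    apply Real.sqrt_le_iff.2
    refine ⟨by positivity, ?_⟩
    have := F_le hgood x
    nlinarith [sq_nonneg ‖x‖]
  let e : E ≃L[𝕜] V := φ.toContinuousLinearEquivOfBounds 1 2 b1 b2
  have he : ∀ x, ‖x‖ = Real.sqrt (F (S.T p) (e x)) := hφ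
  have hcomp : CompleteSpace E := by
    rw [completeSpace_congr (e := e.toEquiv) e.isUniformEmbedding]
    infer_instance
  refine ⟨E, i1, i2, hcomp, ?_, ?_⟩
  · -- the Π basis
    let P' : ℕ → V →L[𝕜] V := fun m =>
      { toFun := fun x => S.P p m x
        map_add' := fun x y => map_add _ x y
        map_smul' := fun c x => hP m c x
        cont := (S.P p m).continuous }
    have hP' : ∀ m x, P' m x = S.P p m x := fun _ _ => rfl
    let u : ℕ → E →L[𝕜] E := fun m =>
      ((e.symm : V →L[𝕜] E).comp (P' m)).comp (e : E →L[𝕜] V)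
    have hu : ∀ m x, u m x = e.symm (S.P p m (e x)) := fun _ _ => rfl
    refine ⟨u, ?_, ?_, ?_, ?_⟩
    · intro m
      ext x
      rw [ContinuousLinearMap.comp_apply, hu, hu, e.apply_symm_apply, S.P_P]
    · intro m
      obtain ⟨W, hW, hPW⟩ := S.P_fin p m
      -- finite dimension over ℝ of the range of P'
      have h1 : FiniteDimensional 𝕜 (LinearMap.range (P' m : V →ₗ[𝕜] V)) := by
        have h2 : FiniteDimensional ℝ
            ((LinearMap.range (P' m : V →ₗ[𝕜] V)).restrictScalars ℝ) := by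
          apply Submodule.finiteDimensional_of_le (S₂ := W)
          rintro y ⟨x, rfl⟩
          exact hPW x
        have h2' : Module.Finite ℝ (LinearMap.range (P' m : V →ₗ[𝕜] V)) := h2
        exact Module.Finite.of_restrictScalars_finite ℝ 𝕜 _
      have h3 : LinearMap.range (u m : E →ₗ[𝕜] E) ≤
          (LinearMap.range (P' m : V →ₗ[𝕜] V)).map (e.symm : V →ₗ[𝕜] E) := by
        rintro y ⟨x, rfl⟩
        exact ⟨P' m (e x), ⟨e x, rfl⟩, rfl⟩
      exact Submodule.finiteDimensional_of_le h3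
    · intro x
      have h1 := (e.symm.continuous.tendsto (e x)).comp (S.P_tend p (e x))
      rw [e.symm_apply_apply] at h1
      exact h1
    · intro m
      apply ContinuousLinearMap.opNorm_le_bound _ zero_le_one
      intro x
      rw [one_mul, he, he, hu, e.apply_symm_apply]
      exact Real.sqrt_le_sqrt (S.P_contr p m _)
  · rintro ⟨u, hu⟩
    let R : ℕ → V →L[ℝ] V := fun n =>
      (((e : E →L[𝕜] V).comp (u n)).comp (e.symm : V →L[𝕜] E)).restrictScalars ℝ
    have hR : ∀ n x, R n x = e (u n (e.symm x)) := fun _ _ => rfl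
    have hidem : ∀ n x, u n (u n x) = u n x := by
      intro n x
      rw [← ContinuousLinearMap.comp_apply, hu.idem]
    apply S.no_small p R
    · intro n x
      rw [hR, hR, e.symm_apply_apply, hidem]
    · intro n x
      have h1 := (u n).le_opNorm (e.symm x)
      have h2 : ‖u n (e.symm x)‖ ≤ ‖e.symm x‖ := by
        refine h1.trans ?_
        have := hu.norm_le n
        nlinarith [norm_nonneg (e.symm x)]
      rw [he, he, e.apply_symm_apply] at h2
      rw [hR]
      exact (Real.sqrt_le_sqrt_iff (F_nonneg _ _)).1 h2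
    · intro n
      have h1 := hu.fin n
      let W : Submodule 𝕜 V := (LinearMap.range (u n : E →ₗ[𝕜] E)).map (e : E →ₗ[𝕜] V)
      have h2 : FiniteDimensional 𝕜 W := inferInstance
      refine ⟨W.restrictScalars ℝ, ?_, ?_⟩
      · have h3 : FiniteDimensional ℝ W := FiniteDimensional.trans ℝ 𝕜 W
        exact h3
      · intro x
        exact ⟨u n (e.symm x), ⟨e.symm x, rfl⟩, rfl⟩
    · intro x
      have h1 := (e.continuous.tendsto (e.symm x)).comp (hu.tend (e.symm x))
      rw [e.apply_symm_apply] at h1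
      exact h1
    · intro m n hmn x
      rw [hR, hR, e.symm_apply_apply]
      obtain ⟨z, hz⟩ := hu.nested m n hmn ⟨e.symm x, rfl⟩
      have hz' : u n z = u m (e.symm x) := hz
      rw [← hz', hidem]

end Pool.Agent.Helper640.PiBasis
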