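import Pool.Agent.Helper640.Pi.A

set_option autoImplicit false
set_option linter.deprecated false

open Filter Topology

namespace Pool.Agent.Helper640.PiBasis

/-- The abstract system: two halves (J = 1 and J = -1), each an infinite tensor
product of two-dimensional spaces, with reflections X j, Z j and projections Q m. -/
structure Sys (V : Type*) [NormedAddCommGroup V] [InnerProductSpace ℝ V] where
  J : V →L[ℝ] V
  X : ℕ → V →L[ℝ] V
  Z : ℕ → V →L[ℝ] V
  Q : ℕ → V →L[ℝ] V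
  o : V
  o' : V
  J_symm : ∀ x y, inner ℝ (J x) y = inner ℝ x (J y)
  X_symm : ∀ j x y, inner ℝ (X j x) y = inner ℝ x (X j y)
  Z_symm : ∀ j x y, inner ℝ (Z j x) y = inner ℝ x (Z j y)
  Q_symm : ∀ j x y, inner ℝ (Q j x) y = inner ℝ x (Q j y)
  J_J : J * J = 1
  X_X : ∀ j, X j * X j = 1
  Z_Z : ∀ j, Z j * Z j = 1
  Q_Q : ∀ j, Q j * Q j = Q j
  J_X : ∀ j, Commute J (X j)
  J_Z : ∀ j, Commute J (Z j)
  J_Q : ∀ j, Commute J (Q j)
  X_comm : ∀ i j, Commute (X i) (X j)
  Z_comm : ∀ i j, Commute (Z i) (Z j)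
  X_Z : ∀ i j, i ≠ j → Commute (X i) (Z j)
  X_Z_anti : ∀ i, X i * Z i = - (Z i * X i)
  Q_X : ∀ m j, j < m → Commute (Q m) (X j)
  Q_Z : ∀ m j, j < m → Commute (Q m) (Z j)
  Z_Q : ∀ m j x, m ≤ j → Z j (Q m x) = Q m x
  X_Q : ∀ m j x y, m ≤ j → inner ℝ (X j (Q m x)) (Q m y) = 0
  Q_fin : ∀ m, FiniteDimensional ℝ (LinearMap.range (Q m : V →ₗ[ℝ] V))
  Q_tend : ∀ x, Tendsto (fun m => Q m x) atTop (𝓝 x)
  o_norm : ‖o‖ = 1
  o'_norm : ‖o'‖ = 1
  J_o : J o = o
  J_o' : J o' = - o'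
  Q_o : Q 0 o = o

/-- The numerical parameters. -/
structure Par where
  a : ℕ → ℝ
  b : ℕ → ℝ
  a' : ℕ → ℝ
  b' : ℕ → ℝ
  c : ℕ → ℝ
  e : ℕ → ℝ
  ab : ∀ k, a k ^ 2 + b k ^ 2 = 1
  ab' : ∀ k, a' k ^ 2 + b' k ^ 2 = 1
  c_def : ∀ k, c k = a k * a' k + b k * b' k
  a_lt : ∀ k, a k < 1
  a_nonneg : ∀ k, 0 ≤ a k
  a'_lt : ∀ k, a' k < 1
  a'_ge : ∀ k, 1 / 2 ≤ a' k
  det : ∀ k, a k * b' k - a' k * b k ≠ 0
  c_ge : ∀ k, a' k ≤ c k
  c_gt : ∀ k, a k + (1 - a k) / 4 < c k
  key : ∀ k, (1 - c k) + |a k - a' k| + |b k - b' k| < 3 / 4 * (1 - a k)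
  a_tend : Tendsto a atTop (𝓝 1)
  b_tend : Tendsto b atTop (𝓝 0)
  e_pos : ∀ i, 0 < e i
  e_le : ∀ i, e i ≤ 1 / 8
  e_lt : ∀ i j, i < j → 12 * e j ≤ e i * ((1 - a (i / 2)) / 4)
  e_tend : Tendsto e atTop (𝓝 0)

variable {V : Type*} [NormedAddCommGroup V] [InnerProductSpace ℝ V]

/-- Symmetric operator. -/
def Sy (A : V →L[ℝ] V) : Prop := ∀ x y, inner ℝ (A x) y = inner ℝ x (A y)

theorem Sy.add {A B : V →L[ℝ] V} (hA : Sy A) (hB : Sy B) : Sy (A + B) := by
  intro x y
  simp only [ContinuousLinearMap.add_apply, inner_add_left, inner_add_right, hA x y, hB x y]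

theorem Sy.sub {A B : V →L[ℝ] V} (hA : Sy A) (hB : Sy B) : Sy (A - B) := by
  intro x y
  simp only [ContinuousLinearMap.sub_apply, inner_sub_left, inner_sub_right, hA x y, hB x y]

theorem Sy.neg {A : V →L[ℝ] V} (hA : Sy A) : Sy (-A) := by
  intro x y
  simp only [ContinuousLinearMap.neg_apply, inner_neg_left, inner_neg_right, hA x y]

theorem Sy.smul {A : V →L[ℝ] V} (hA : Sy A) (r : ℝ) : Sy (r • A) := by
  intro x y
  simp only [ContinuousLinearMap.smul_apply, inner_smul_left, inner_smul_right, hA x y,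
    RCLike.conj_to_real]

theorem Sy.one : Sy (1 : V →L[ℝ] V) := fun _ _ => rfl

theorem Sy.mul {A B : V →L[ℝ] V} (hA : Sy A) (hB : Sy B) (h : Commute A B) : Sy (A * B) := by
  intro x y
  have h1 : (A * B) x = A (B x) := rfl
  have h2 : (A * B) y = (B * A) y := by rw [h.eq]
  have h3 : (B * A) y = B (A y) := rfl
  rw [h1, h2, h3, hA, hB]

namespace Sys

variable (S : Sys V) (p : Par)

/-- projections onto the halves -/
noncomputable def PH : V →L[ℝ] V := (1 / 2 : ℝ) • (1 + S.J)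
noncomputable def PK : V →L[ℝ] V := (1 / 2 : ℝ) • (1 - S.J)

/-- reflections -/
noncomputable def N (k : ℕ) : V →L[ℝ] V := p.a k • S.Z k + p.b k • S.X k
noncomputable def N' (k : ℕ) : V →L[ℝ] V := p.a' k • S.Z k + p.b' k • S.X k

noncomputable def Zt : ℕ → V →L[ℝ] V
  | 0 => -1
  | (k + 1) => S.Z k

noncomputable def A (i : ℕ) : V →L[ℝ] V :=
  if i % 2 = 1 then S.N p (i / 2) - p.a (i / 2) • 1
  else S.Zt (i / 2) * (S.N' p (i / 2) - p.c (i / 2) • 1)

noncomputable def B (i : ℕ) : V →L[ℝ] V :=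
  p.e i • (S.A p i * S.PH) - ((2 : ℝ) • 1 - S.X i) * S.PK

noncomputable def T : ℕ → V →L[ℝ] V
  | 0 => S.J
  | 1 => - S.J
  | (i + 2) => S.B p i

theorem A_odd (k : ℕ) : S.A p (2 * k + 1) = S.N p k - p.a k • 1 := by
  unfold A
  rw [if_pos (by omega), show (2 * k + 1) / 2 = k by omega]

theorem A_even (k : ℕ) : S.A p (2 * k) = S.Zt k * (S.N' p k - p.c k • 1) := by
  unfold A
  rw [if_neg (by omega), show (2 * k) / 2 = k by omega]

/-! commutation -/

theorem J_N (k : ℕ) : Commute S.J (S.N p k) :=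
  ((S.J_Z k).smul_right _).add_right ((S.J_X k).smul_right _)

theorem J_N' (k : ℕ) : Commute S.J (S.N' p k) :=
  ((S.J_Z k).smul_right _).add_right ((S.J_X k).smul_right _)

theorem J_Zt (k : ℕ) : Commute S.J (S.Zt k) := by
  cases k with
  | zero => exact (Commute.one_right _).neg_right
  | succ k => exact S.J_Z k

theorem J_A (i : ℕ) : Commute S.J (S.A p i) := by
  unfold A
  split_ifs
  · exact (S.J_N p _).sub_right ((Commute.one_right _).smul_right _)
  · exact (S.J_Zt _).mul_right ((S.J_N' p _).sub_right ((Commute.one_right _).smul_right _))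

theorem PH_of {D : V →L[ℝ] V} (h : Commute S.J D) : Commute S.PH D :=
  ((Commute.one_left _).add_left h).smul_left _

theorem PK_of {D : V →L[ℝ] V} (h : Commute S.J D) : Commute S.PK D :=
  ((Commute.one_left _).sub_left h).smul_left _

theorem X_N (i k : ℕ) (h : i ≠ k) : Commute (S.X i) (S.N p k) :=
  ((S.X_Z i k h).smul_right _).add_right ((S.X_comm i k).smul_right _)

theorem X_N' (i k : ℕ) (h : i ≠ k) : Commute (S.X i) (S.N' p k) :=
  ((S.X_Z i k h).smul_right _).add_right ((S.X_comm i k).smul_right _)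

theorem Z_N (i k : ℕ) (h : i ≠ k) : Commute (S.Z i) (S.N p k) :=
  ((S.Z_comm i k).smul_right _).add_right ((S.X_Z k i (Ne.symm h)).symm.smul_right _)

theorem Z_N' (i k : ℕ) (h : i ≠ k) : Commute (S.Z i) (S.N' p k) :=
  ((S.Z_comm i k).smul_right _).add_right ((S.X_Z k i (Ne.symm h)).symm.smul_right _)

theorem Zt_N (i k : ℕ) (h : i ≠ k + 1) : Commute (S.Zt i) (S.N p k) := by
  cases i with
  | zero => exact (Commute.one_left _).neg_left
  | succ i => exact S.Z_N p i k (by omega)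

theorem Zt_N' (i k : ℕ) (h : i ≠ k + 1) : Commute (S.Zt i) (S.N' p k) := by
  cases i with
  | zero => exact (Commute.one_left _).neg_left
  | succ i => exact S.Z_N' p i k (by omega)

theorem N_N (i k : ℕ) (h : i ≠ k) : Commute (S.N p i) (S.N p k) :=
  ((S.Z_N p i k h).smul_left _).add_left ((S.X_N p i k h).smul_left _)

theorem N'_N (i k : ℕ) (h : i ≠ k) : Commute (S.N' p i) (S.N p k) :=
  ((S.Z_N p i k h).smul_left _).add_left ((S.X_N p i k h).smul_left _)

theorem Q_N (m k : ℕ) (h : k < m) : Commute (S.Q m) (S.N p k) :=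
  ((S.Q_Z m k h).smul_right _).add_right ((S.Q_X m k h).smul_right _)

theorem Q_N' (m k : ℕ) (h : k < m) : Commute (S.Q m) (S.N' p k) :=
  ((S.Q_Z m k h).smul_right _).add_right ((S.Q_X m k h).smul_right _)

theorem Q_Zt (m k : ℕ) (h : k ≤ m) : Commute (S.Q m) (S.Zt k) := by
  cases k with
  | zero => exact (Commute.one_right _).neg_right
  | succ k => exact S.Q_Z m k (by omega)

/-! squares -/

theorem J_J_apply (x : V) : S.J (S.J x) = x := by
  have := congrArg (fun D : V →L[ℝ] V => D x) S.J_J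
  exact this

theorem X_X_apply (j : ℕ) (x : V) : S.X j (S.X j x) = x := by
  have := congrArg (fun D : V →L[ℝ] V => D x) (S.X_X j)
  exact this

theorem Z_Z_apply (j : ℕ) (x : V) : S.Z j (S.Z j x) = x := by
  have := congrArg (fun D : V →L[ℝ] V => D x) (S.Z_Z j)
  exact this

theorem X_Z_apply (j : ℕ) (x : V) : S.X j (S.Z j x) = - S.Z j (S.X j x) := by
  have := congrArg (fun D : V →L[ℝ] V => D x) (S.X_Z_anti j)
  exact this

theorem N_N_apply (k : ℕ) (x : V) : S.N p k (S.N p k x) = x := by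
  unfold N
  simp only [ContinuousLinearMap.add_apply, ContinuousLinearMap.smul_apply, map_add, map_smul,
    Z_Z_apply, X_X_apply, X_Z_apply]
  have h : (p.a k ^ 2 + p.b k ^ 2) • x = x := by rw [p.ab k, one_smul]
  refine Eq.trans ?_ h
  module

theorem N'_N'_apply (k : ℕ) (x : V) : S.N' p k (S.N' p k x) = x := by
  unfold N'
  simp only [ContinuousLinearMap.add_apply, ContinuousLinearMap.smul_apply, map_add, map_smul,
    Z_Z_apply, X_X_apply, X_Z_apply]
  have h : (p.a' k ^ 2 + p.b' k ^ 2) • x = x := by rw [p.ab' k, one_smul]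
  refine Eq.trans ?_ h
  module

theorem N_N'_apply (k : ℕ) (x : V) :
    S.N p k (S.N' p k x) = (2 * p.c k) • x - S.N' p k (S.N p k x) := by
  unfold N N'
  simp only [ContinuousLinearMap.add_apply, ContinuousLinearMap.smul_apply, map_add, map_smul,
    Z_Z_apply, X_X_apply, X_Z_apply, p.c_def k]
  module

theorem Zt_Zt_apply (k : ℕ) (x : V) : S.Zt k (S.Zt k x) = x := by
  cases k with
  | zero => simp [Zt]
  | succ k => exact S.Z_Z_apply k x

/-! symmetry -/

theorem sy_N (k : ℕ) : Sy (S.N p k) := (Sy.smul (S.Z_symm k) _).add (Sy.smul (S.X_symm k) _)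
theorem sy_N' (k : ℕ) : Sy (S.N' p k) := (Sy.smul (S.Z_symm k) _).add (Sy.smul (S.X_symm k) _)
theorem sy_Zt (k : ℕ) : Sy (S.Zt k) := by
  cases k with
  | zero => exact Sy.one.neg
  | succ k => exact S.Z_symm k
theorem sy_PH : Sy S.PH := (Sy.one.add S.J_symm).smul _
theorem sy_PK : Sy S.PK := (Sy.one.sub S.J_symm).smul _

theorem sy_A (i : ℕ) : Sy (S.A p i) := by
  unfold A
  split_ifs
  · exact (S.sy_N p _).sub (Sy.one.smul _)
  · exact (S.sy_Zt _).mul ((S.sy_N' p _).sub (Sy.one.smul _))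
      ((S.Zt_N' p _ _ (by omega)).sub_right ((Commute.one_right _).smul_right _))

theorem sy_B (i : ℕ) : Sy (S.B p i) := by
  unfold B
  refine Sy.sub (Sy.smul (Sy.mul (S.sy_A p i) S.sy_PH (S.PH_of (S.J_A p i)).symm) _) ?_
  refine Sy.mul ((Sy.one.smul _).sub (S.X_symm i)) S.sy_PK ?_
  exact (((Commute.one_right _).smul_right _).sub_right (S.PK_of (S.J_X i))).symm

theorem sy_T (i : ℕ) : Sy (S.T p i) := by
  match i with
  | 0 => exact S.J_symm
  | 1 => exact Sy.neg S.J_symm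
  | (i + 2) => exact S.sy_B p i

/-! norms -/

theorem norm_of_symm_inv {D : V →L[ℝ] V} (h : Sy D) (h2 : ∀ x, D (D x) = x) (x : V) :
    ‖D x‖ = ‖x‖ := by
  have h1 : ‖D x‖ ^ 2 = ‖x‖ ^ 2 := by
    rw [← real_inner_self_eq_norm_sq, ← real_inner_self_eq_norm_sq, h, h2]
  exact (pow_left_inj₀ (norm_nonneg _) (norm_nonneg _) two_ne_zero).1 h1

theorem norm_J (x : V) : ‖S.J x‖ = ‖x‖ := norm_of_symm_inv S.J_symm S.J_J_apply x
theorem norm_X (j : ℕ) (x : V) : ‖S.X j x‖ = ‖x‖ := norm_of_symm_inv (S.X_symm j) (S.X_X_apply j) x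
theorem norm_Z (j : ℕ) (x : V) : ‖S.Z j x‖ = ‖x‖ := norm_of_symm_inv (S.Z_symm j) (S.Z_Z_apply j) x
theorem norm_N (k : ℕ) (x : V) : ‖S.N p k x‖ = ‖x‖ :=
  norm_of_symm_inv (S.sy_N p k) (S.N_N_apply p k) x
theorem norm_N' (k : ℕ) (x : V) : ‖S.N' p k x‖ = ‖x‖ :=
  norm_of_symm_inv (S.sy_N' p k) (S.N'_N'_apply p k) x
theorem norm_Zt (k : ℕ) (x : V) : ‖S.Zt k x‖ = ‖x‖ :=
  norm_of_symm_inv (S.sy_Zt k) (S.Zt_Zt_apply k) x

theorem a_abs (k : ℕ) : |p.a k| ≤ 1 := by
  rw [abs_le]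
  have h1 := p.a_lt k
  have h2 := p.a_nonneg k
  constructor <;> linarith

theorem c_le (k : ℕ) : p.c k ≤ 1 := by
  have h1 := p.ab k
  have h2 := p.ab' k
  have h3 := p.c_def k
  nlinarith [sq_nonneg (p.a k - p.a' k), sq_nonneg (p.b k - p.b' k)]

theorem c_nonneg (k : ℕ) : 0 ≤ p.c k := by
  have h1 := p.c_ge k
  have h2 := p.a'_ge k
  linarith

theorem norm_A (i : ℕ) (x : V) : ‖S.A p i x‖ ≤ 2 * ‖x‖ := by
  unfold A
  split_ifs
  · rw [ContinuousLinearMap.sub_apply, ContinuousLinearMap.smul_apply,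
      ContinuousLinearMap.one_apply]
    refine (norm_sub_le _ _).trans ?_
    rw [S.norm_N, norm_smul, Real.norm_eq_abs]
    have := a_abs p (i / 2)
    nlinarith [norm_nonneg x]
  · rw [ContinuousLinearMap.mul_apply, S.norm_Zt, ContinuousLinearMap.sub_apply,
      ContinuousLinearMap.smul_apply, ContinuousLinearMap.one_apply]
    refine (norm_sub_le _ _).trans ?_
    rw [S.norm_N', norm_smul, Real.norm_eq_abs, abs_of_nonneg (c_nonneg p _)]
    have := c_le p (i / 2)
    nlinarith [norm_nonneg x]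

/-! the two halves -/

theorem J_PH (x : V) : S.J (S.PH x) = S.PH x := by
  simp only [PH, ContinuousLinearMap.smul_apply, ContinuousLinearMap.add_apply,
    ContinuousLinearMap.one_apply, map_smul, map_add, J_J_apply]
  module

theorem J_PK (x : V) : S.J (S.PK x) = - S.PK x := by
  simp only [PK, ContinuousLinearMap.smul_apply, ContinuousLinearMap.sub_apply,
    ContinuousLinearMap.one_apply, map_smul, map_sub, J_J_apply]
  module

theorem PH_add_PK (x : V) : S.PH x + S.PK x = x := by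
  simp only [PH, PK, ContinuousLinearMap.smul_apply, ContinuousLinearMap.sub_apply,
    ContinuousLinearMap.add_apply, ContinuousLinearMap.one_apply]
  module

theorem PH_of_J {x : V} (h : S.J x = x) : S.PH x = x := by
  simp only [PH, ContinuousLinearMap.smul_apply,
    ContinuousLinearMap.add_apply, ContinuousLinearMap.one_apply, h]
  module

theorem PK_of_J {x : V} (h : S.J x = x) : S.PK x = 0 := by
  simp only [PK, ContinuousLinearMap.smul_apply,
    ContinuousLinearMap.sub_apply, ContinuousLinearMap.one_apply, h]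
  module

theorem PH_of_J' {x : V} (h : S.J x = -x) : S.PH x = 0 := by
  simp only [PH, ContinuousLinearMap.smul_apply,
    ContinuousLinearMap.add_apply, ContinuousLinearMap.one_apply, h]
  module

theorem PK_of_J' {x : V} (h : S.J x = -x) : S.PK x = x := by
  simp only [PK, ContinuousLinearMap.smul_apply,
    ContinuousLinearMap.sub_apply, ContinuousLinearMap.one_apply, h]
  module

theorem inner_HK {x h : V} (hx : S.J x = x) (hh : S.J h = -h) : inner ℝ x h = 0 := by
  have h1 := S.J_symm x h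
  rw [hx, hh, inner_neg_right] at h1
  linarith

theorem B_apply_H (i : ℕ) {x : V} (hx : S.J x = x) : S.B p i x = p.e i • S.A p i x := by
  simp only [B, ContinuousLinearMap.sub_apply, ContinuousLinearMap.smul_apply,
    ContinuousLinearMap.mul_apply, S.PH_of_J hx, S.PK_of_J hx, map_zero, sub_zero]

theorem B_apply_K (i : ℕ) {h : V} (hh : S.J h = -h) : S.B p i h = S.X i h - (2 : ℝ) • h := by
  simp only [B, ContinuousLinearMap.sub_apply, ContinuousLinearMap.smul_apply,
    ContinuousLinearMap.mul_apply, S.PH_of_J' hh, S.PK_of_J' hh, map_zero, smul_zero,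
    ContinuousLinearMap.one_apply]
  module

theorem J_apply_A (i : ℕ) {x : V} (hx : S.J x = x) : S.J (S.A p i x) = S.A p i x := by
  have h1 := congrArg (fun D : V →L[ℝ] V => D x) (S.J_A p i).eq
  simp only [ContinuousLinearMap.mul_apply] at h1
  rw [h1, hx]

theorem J_apply_X (i : ℕ) {x : V} (hx : S.J x = x) : S.J (S.X i x) = S.X i x := by
  have h1 := congrArg (fun D : V →L[ℝ] V => D x) (S.J_X i).eq
  simp only [ContinuousLinearMap.mul_apply] at h1
  rw [h1, hx]

theorem J_apply_X' (i : ℕ) {x : V} (hx : S.J x = -x) : S.J (S.X i x) = - S.X i x := by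
  have h1 := congrArg (fun D : V →L[ℝ] V => D x) (S.J_X i).eq
  simp only [ContinuousLinearMap.mul_apply] at h1
  rw [h1, hx, map_neg]

/-- The quadratic form of B. -/
theorem B_form (i : ℕ) {x h : V} (hx : S.J x = x) (hh : S.J h = -h) :
    inner ℝ (S.B p i (x + h)) (x + h) =
      p.e i * inner ℝ (S.A p i x) x - (2 * ‖h‖ ^ 2 - inner ℝ (S.X i h) h) := by
  rw [map_add, S.B_apply_H p i hx, S.B_apply_K p i hh]
  have h1 := S.inner_HK (S.J_apply_A p i hx) hh
  have h2 := S.inner_HK hx (S.J_apply_X' i hh)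
  have h3 := S.inner_HK hx hh
  simp only [inner_add_left, inner_add_right, inner_sub_left, inner_smul_left,
    RCLike.conj_to_real, real_inner_self_eq_norm_sq]
  rw [h1, real_inner_comm x (S.X i h), h2, real_inner_comm x h, h3]
  ring

theorem J_form {x h : V} (hx : S.J x = x) (hh : S.J h = -h) :
    inner ℝ (S.J (x + h)) (x + h) = ‖x‖ ^ 2 - ‖h‖ ^ 2 := by
  rw [map_add, hx, hh]
  have h3 := S.inner_HK hx hh
  simp only [inner_add_left, inner_add_right, inner_neg_left, real_inner_self_eq_norm_sq]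
  rw [real_inner_comm x h, h3]
  ring

theorem norm_HK {x h : V} (hx : S.J x = x) (hh : S.J h = -h) :
    ‖x + h‖ ^ 2 = ‖x‖ ^ 2 + ‖h‖ ^ 2 := by
  rw [← real_inner_self_eq_norm_sq]
  have h3 := S.inner_HK hx hh
  simp only [inner_add_left, inner_add_right, real_inner_self_eq_norm_sq]
  rw [real_inner_comm x h, h3]
  ring

theorem A_abs (i : ℕ) (x : V) : |inner ℝ (S.A p i x) x| ≤ 2 * ‖x‖ ^ 2 := by
  refine (abs_real_inner_le_norm _ _).trans ?_
  have := S.norm_A p i x
  nlinarith [norm_nonneg x]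

theorem X_abs (i : ℕ) (x : V) : |inner ℝ (S.X i x) x| ≤ ‖x‖ ^ 2 := by
  refine (abs_real_inner_le_norm _ _).trans ?_
  rw [S.norm_X]
  nlinarith [norm_nonneg x]

theorem good : Good (S.T p) where
  symm := S.sy_T p
  bd := by
    intro i x
    match i with
    | 0 =>
      refine (abs_real_inner_le_norm _ _).trans ?_
      simp only [T]
      rw [S.norm_J]
      nlinarith [norm_nonneg x]
    | 1 =>
      refine (abs_real_inner_le_norm _ _).trans ?_
      simp only [T, ContinuousLinearMap.neg_apply, norm_neg]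
      rw [S.norm_J]
      nlinarith [norm_nonneg x]
    | (i + 2) =>
      simp only [T]
      have h1 := S.B_form p i (S.J_PH x) (S.J_PK x)
      have h2 := S.norm_HK (S.J_PH x) (S.J_PK x)
      rw [S.PH_add_PK] at h1 h2
      rw [h1, h2]
      have h3 := S.A_abs p i (S.PH x)
      have h4 := S.X_abs i (S.PK x)
      have h5 := p.e_pos i
      have h6 := p.e_le i
      rw [abs_le] at h3 h4 ⊢
      constructor
      · nlinarith [sq_nonneg ‖S.PH x‖, sq_nonneg ‖S.PK x‖]
      · nlinarith [sq_nonneg ‖S.PH x‖, sq_nonneg ‖S.PK x‖]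

end Sys

end Pool.Agent.Helper640.PiBasis
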