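import Pool.Agent.Helper640.Pi.C

set_option autoImplicit false
set_option linter.deprecated false

open Filter Topology

namespace Pool.Agent.Helper640.PiBasis

variable {V : Type*} [NormedAddCommGroup V] [InnerProductSpace ℝ V]

/-- A symmetric idempotent for which every form either commutes or is nonpositive on the
range is contractive for the new norm. -/
theorem lemmaPi {T : ℕ → V →L[ℝ] V} (hT : Good T) (P : V →L[ℝ] V) (hP : Sy P)
    (hPP : ∀ x, P (P x) = P x)
    (h : ∀ i, (∀ x, T i (P x) = P (T i x)) ∨ ∀ x, inner ℝ (T i (P x)) (P x) ≤ 0) (x : V) :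
    F T (P x) ≤ F T x := by
  have h1 : Tendsto (fun n => ‖P x‖ ^ 2 + ∑ i ∈ Finset.range n,
      cc i * max (inner ℝ (T i (P x)) (P x)) 0) atTop (𝓝 (F T (P x))) :=
    (F_summable hT (P x)).hasSum.tendsto_sum_nat.const_add _
  apply le_of_tendsto' h1
  intro n
  set S := (Finset.range n).filter (fun i => 0 < inner ℝ (T i (P x)) (P x)) with hS
  have h2 : ‖P x‖ ^ 2 + ∑ i ∈ Finset.range n, cc i * max (inner ℝ (T i (P x)) (P x)) 0
      = bS T S (P x) (P x) := by
    unfold bS
    rw [real_inner_self_eq_norm_sq, hS, Finset.sum_filter]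
    congr 1
    apply Finset.sum_congr rfl
    intro i _
    split_ifs with h
    · rw [max_eq_left h.le]
    · rw [max_eq_right (not_lt.1 h), mul_zero]
  rw [h2]
  have hcom : ∀ i ∈ S, ∀ x, T i (P x) = P (T i x) := by
    intro i hi
    rw [hS, Finset.mem_filter] at hi
    rcases h i with h3 | h3
    · exact h3
    · exact absurd hi.2 (not_lt.2 (h3 x))
  have hz : P (x - P x) = 0 := by rw [map_sub, hPP, sub_self]
  have hcross : bS T S (P x) (x - P x) = 0 := by
    unfold bS
    rw [hP, hz, inner_zero_right, zero_add]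
    apply Finset.sum_eq_zero
    intro i hi
    rw [hcom i hi, hP, hz, inner_zero_right, mul_zero]
  have h4 := bS_self_add hT S (P x) (x - P x) 1
  rw [one_smul, add_sub_cancel, hcross] at h4
  have h5 := bS_nonneg hT S (x - P x)
  have h6 := bS_le_F hT S x
  linarith

namespace Sys

variable (S : Sys V) (p : Par)

noncomputable def E (m : ℕ) : V →L[ℝ] V := S.Q (m + 1) * ((1 / 2 : ℝ) • (1 + S.N p m))

noncomputable def P (m : ℕ) : V →L[ℝ] V := S.E p m * S.PH + S.Q (2 * m + 2) * S.PK

theorem comm_apply {D D' : V →L[ℝ] V} (h : Commute D D') (x : V) : D (D' x) = D' (D x) :=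
  congrArg (fun D : V →L[ℝ] V => D x) h.eq

theorem J_E (m : ℕ) : Commute S.J (S.E p m) :=
  (S.J_Q _).mul_right (((Commute.one_right _).add_right (S.J_N p _)).smul_right _)

theorem Q_half (m : ℕ) : Commute (S.Q (m + 1)) ((1 / 2 : ℝ) • (1 + S.N p m)) :=
  ((Commute.one_right _).add_right (S.Q_N p (m + 1) m (by omega))).smul_right _

theorem sy_E (m : ℕ) : Sy (S.E p m) :=
  Sy.mul (S.Q_symm _) ((Sy.one.add (S.sy_N p m)).smul _) (S.Q_half p m)

theorem sy_P (m : ℕ) : Sy (S.P p m) :=
  (Sy.mul (S.sy_E p m) S.sy_PH (S.PH_of (S.J_E p m)).symm).add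
    (Sy.mul (S.Q_symm _) S.sy_PK (S.PK_of (S.J_Q _)).symm)

theorem Q_Q_apply (m : ℕ) (x : V) : S.Q m (S.Q m x) = S.Q m x :=
  congrArg (fun D : V →L[ℝ] V => D x) (S.Q_Q m)

theorem E_apply (m : ℕ) (x : V) : S.E p m x = S.Q (m + 1) ((1 / 2 : ℝ) • (x + S.N p m x)) := rfl

theorem N_E (m : ℕ) (x : V) : S.N p m (S.E p m x) = S.E p m x := by
  rw [E_apply, ← comm_apply (S.Q_N p (m + 1) m (by omega)), map_smul, map_add, N_N_apply,
    add_comm x]

theorem Q_E (m : ℕ) (x : V) : S.Q (m + 1) (S.E p m x) = S.E p m x := by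
  rw [E_apply, Q_Q_apply]

theorem E_of {m : ℕ} {x : V} (h1 : S.N p m x = x) (h2 : S.Q (m + 1) x = x) :
    S.E p m x = x := by
  rw [E_apply, h1, ← two_smul ℝ x, smul_smul]
  norm_num [h2]

theorem E_E (m : ℕ) (x : V) : S.E p m (S.E p m x) = S.E p m x :=
  S.E_of p (S.N_E p m x) (S.Q_E p m x)

theorem J_apply_E (m : ℕ) {x : V} (hx : S.J x = x) : S.J (S.E p m x) = S.E p m x := by
  rw [comm_apply (S.J_E p m), hx]

theorem J_apply_Q' (m : ℕ) {x : V} (hx : S.J x = -x) : S.J (S.Q m x) = - S.Q m x := by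
  rw [comm_apply (S.J_Q m), hx, map_neg]

theorem P_apply_H (m : ℕ) {x : V} (hx : S.J x = x) : S.P p m x = S.E p m x := by
  simp only [P, ContinuousLinearMap.add_apply, ContinuousLinearMap.mul_apply, S.PH_of_J hx,
    S.PK_of_J hx, map_zero, add_zero]

theorem P_apply_K (m : ℕ) {x : V} (hx : S.J x = -x) : S.P p m x = S.Q (2 * m + 2) x := by
  simp only [P, ContinuousLinearMap.add_apply, ContinuousLinearMap.mul_apply, S.PH_of_J' hx,
    S.PK_of_J' hx, map_zero, zero_add]

theorem P_apply (m : ℕ) (x : V) :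
    S.P p m x = S.E p m (S.PH x) + S.Q (2 * m + 2) (S.PK x) := rfl

theorem P_P (m : ℕ) (x : V) : S.P p m (S.P p m x) = S.P p m x := by
  rw [S.P_apply p m x, map_add, S.P_apply_H p m (S.J_apply_E p m (S.J_PH x)),
    S.P_apply_K p m (S.J_apply_Q' _ (S.J_PK x)), E_E, Q_Q_apply]

/-- the A operators commuting with E m -/
theorem A_E (m i : ℕ) (h1 : i ≤ 2 * m + 1) (h2 : i ≠ 2 * m) : Commute (S.A p i) (S.E p m) := by
  rcases Nat.even_or_odd' i with ⟨k, rfl | rfl⟩
  · rw [A_even]
    unfold E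
    have hk : k < m := by omega
    refine Commute.mul_left ?_ ?_
    · refine Commute.mul_right (S.Q_Zt _ _ (by omega)).symm ?_
      exact ((Commute.one_right _).add_right (S.Zt_N p k m (by omega))).smul_right _
    · refine Commute.sub_left ?_ ((Commute.one_left _).smul_left _)
      refine Commute.mul_right (S.Q_N' p _ _ (by omega)).symm ?_
      exact ((Commute.one_right _).add_right (S.N'_N p k m (by omega))).smul_right _
  · rw [A_odd]
    unfold E
    refine Commute.sub_left ?_ ((Commute.one_left _).smul_left _)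
    refine Commute.mul_right (S.Q_N p _ _ (by omega)).symm ?_
    refine ((Commute.one_right _).add_right ?_).smul_right _
    by_cases hk : k = m
    · rw [hk]; exact Commute.refl _
    · exact S.N_N p k m hk

theorem B_P_comm (m i : ℕ) (h1 : i ≤ 2 * m + 1) (h2 : i ≠ 2 * m) (x : V) :
    S.B p i (S.P p m x) = S.P p m (S.B p i x) := by
  conv_rhs => rw [← S.PH_add_PK x]
  rw [P_apply, map_add, map_add, S.B_apply_H p i (S.J_apply_E p m (S.J_PH x)),
    S.B_apply_K p i (S.J_apply_Q' _ (S.J_PK x)), S.B_apply_H p i (S.J_PH x),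
    S.B_apply_K p i (S.J_PK x), map_add, map_smul, S.P_apply_H p m (S.J_apply_A p i (S.J_PH x)),
    map_sub, S.P_apply_K p m (S.J_apply_X' i (S.J_PK x)), map_smul,
    S.P_apply_K p m (S.J_PK x), comm_apply (S.A_E p m i h1 h2),
    comm_apply (S.Q_X (2 * m + 2) i (by omega))]

/-- For reflections: N y = y, N z = z implies ⟨N' y, z⟩ = c ⟨y, z⟩. -/
theorem compress (k : ℕ) {y z : V} (hy : S.N p k y = y) (hz : S.N p k z = z) :
    inner ℝ (S.N' p k y) z = p.c k * inner ℝ y z := by
  have h1 : inner ℝ (S.N' p k y) z = inner ℝ (S.N p k (S.N' p k y)) z := by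
    rw [S.sy_N p k (S.N' p k y) z, hz]
  rw [N_N'_apply, hy, inner_sub_left, inner_smul_left, RCLike.conj_to_real] at h1
  linarith

theorem compress_Z (k : ℕ) {y : V} (hy : S.N p k y = y) :
    inner ℝ (S.Z k y) y = p.a k * ‖y‖ ^ 2 := by
  have h1 : inner ℝ (S.Z k y) y = inner ℝ (S.N p k (S.Z k y)) y := by
    rw [S.sy_N p k (S.Z k y) y, hy]
  have h2 : S.N p k (S.Z k y) = (2 * p.a k) • y - S.Z k (S.N p k y) := by
    unfold N
    simp only [ContinuousLinearMap.add_apply, ContinuousLinearMap.smul_apply, map_add, map_smul,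
      Z_Z_apply, X_Z_apply]
    module
  rw [h2, hy, inner_sub_left, inner_smul_left, RCLike.conj_to_real,
    real_inner_self_eq_norm_sq] at h1
  linarith

theorem A_nonpos (m i : ℕ) (h : i = 2 * m ∨ 2 * m + 2 ≤ i) (x : V) :
    inner ℝ (S.A p i (S.E p m x)) (S.E p m x) ≤ 0 := by
  set y := S.E p m x with hy
  have hNy : S.N p m y = y := S.N_E p m x
  have hQy : S.Q (m + 1) y = y := S.Q_E p m x
  rcases Nat.even_or_odd' i with ⟨k, rfl | rfl⟩
  · rcases h with h | h
    · have hk : k = m := by omega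
      subst hk
      rw [A_even, ContinuousLinearMap.mul_apply, S.sy_Zt k, ContinuousLinearMap.sub_apply,
        ContinuousLinearMap.smul_apply, ContinuousLinearMap.one_apply, inner_sub_left,
        inner_smul_left, RCLike.conj_to_real]
      have hz : S.N p k (S.Zt k y) = S.Zt k y := by
        rw [← comm_apply (S.Zt_N p k k (by omega)), hNy]
      rw [S.compress p k hNy hz]
      linarith
    · obtain ⟨j, rfl⟩ : ∃ j, k = j + 1 := ⟨k - 1, by omega⟩
      have hjm : m ≤ j := by omega
      rw [A_even, ContinuousLinearMap.mul_apply]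
      simp only [Zt]
      rw [S.Z_symm j, ContinuousLinearMap.sub_apply,
        ContinuousLinearMap.smul_apply, ContinuousLinearMap.one_apply, inner_sub_left,
        inner_smul_left, RCLike.conj_to_real]
      have hQZ : S.Q (m + 1) (S.Z j y) = S.Z j y := by
        by_cases hj : j = m
        · rw [hj, comm_apply (S.Q_Z (m + 1) m (by omega)), hQy]
        · conv_lhs => rw [← hQy, S.Z_Q (m + 1) j y (by omega), Q_Q_apply]
          conv_rhs => rw [← hQy, S.Z_Q (m + 1) j y (by omega)]
      have hZ : S.Z (j + 1) y = y := by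
        conv_lhs => rw [← hQy, S.Z_Q (m + 1) (j + 1) y (by omega)]
        exact hQy
      have hX : inner ℝ (S.X (j + 1) y) (S.Z j y) = 0 := by
        have := S.X_Q (m + 1) (j + 1) y (S.Z j y) (by omega)
        rwa [hQy, hQZ] at this
      have h5 : inner ℝ (S.N' p (j + 1) y) (S.Z j y) = p.a' (j + 1) * inner ℝ y (S.Z j y) := by
        unfold N'
        rw [ContinuousLinearMap.add_apply, ContinuousLinearMap.smul_apply,
          ContinuousLinearMap.smul_apply, inner_add_left, inner_smul_left, inner_smul_left, hX, hZ,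
          RCLike.conj_to_real, RCLike.conj_to_real, mul_zero, add_zero]
      rw [h5]
      have h6 : 0 ≤ inner ℝ y (S.Z j y) := by
        by_cases hj : j = m
        · rw [hj, ← S.Z_symm, S.compress_Z p m hNy]
          have := p.a_nonneg m
          positivity
        · have : S.Z j y = y := by
            conv_lhs => rw [← hQy, S.Z_Q (m + 1) j y (by omega)]
            exact hQy
          rw [this, real_inner_self_eq_norm_sq]
          positivity
      have h7 := p.c_ge (j + 1)
      nlinarith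
  · have hk : m + 1 ≤ k := by omega
    rw [A_odd, ContinuousLinearMap.sub_apply,
        ContinuousLinearMap.smul_apply, ContinuousLinearMap.one_apply, inner_sub_left,
        inner_smul_left, RCLike.conj_to_real]
    have hZ : S.Z k y = y := by
      conv_lhs => rw [← hQy, S.Z_Q (m + 1) k y (by omega)]
      exact hQy
    have hX : inner ℝ (S.X k y) y = 0 := by
      have := S.X_Q (m + 1) k y y (by omega)
      rwa [hQy] at this
    have h5 : inner ℝ (S.N p k y) y = p.a k * inner ℝ y y := by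
      unfold N
      rw [ContinuousLinearMap.add_apply, ContinuousLinearMap.smul_apply,
        ContinuousLinearMap.smul_apply, inner_add_left, inner_smul_left, inner_smul_left, hX, hZ,
        RCLike.conj_to_real, RCLike.conj_to_real, mul_zero, add_zero]
    rw [h5]
    linarith

theorem P_contr (m : ℕ) (x : V) : F (S.T p) (S.P p m x) ≤ F (S.T p) x := by
  apply lemmaPi (S.good p) _ (S.sy_P p m) (S.P_P p m)
  have hJ : ∀ x, S.J (S.P p m x) = S.P p m (S.J x) := by
    intro x
    conv_rhs => rw [← S.PH_add_PK x]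
    rw [P_apply, map_add, map_add, map_add, S.J_apply_E p m (S.J_PH x),
      S.J_apply_Q' _ (S.J_PK x), S.J_PH, S.J_PK, map_neg, S.P_apply_H p m (S.J_PH x),
      S.P_apply_K p m (S.J_PK x)]
  intro i
  match i with
  | 0 => exact Or.inl hJ
  | 1 =>
    left; intro x
    simp only [T, ContinuousLinearMap.neg_apply, map_neg]
    rw [hJ]
  | (i + 2) =>
    by_cases hi : i ≤ 2 * m + 1 ∧ i ≠ 2 * m
    · left; intro x
      exact S.B_P_comm p m i hi.1 hi.2 x
    · right; intro x
      simp only [T]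
      rw [P_apply, S.B_form p i (S.J_apply_E p m (S.J_PH x)) (S.J_apply_Q' _ (S.J_PK x))]
      have h1 := S.A_nonpos p m i (by omega) (S.PH x)
      have h2 := S.X_abs i (S.Q (2 * m + 2) (S.PK x))
      rw [abs_le] at h2
      have h3 := p.e_pos i
      nlinarith [sq_nonneg ‖S.Q (2 * m + 2) (S.PK x)‖, mul_nonneg h3.le (neg_nonneg.2 h1)]

theorem norm_Q_le (m : ℕ) (x : V) : ‖S.Q m x‖ ≤ ‖x‖ := by
  have h1 : ‖S.Q m x‖ ^ 2 = inner ℝ x (S.Q m x) := by
    rw [← real_inner_self_eq_norm_sq, S.Q_symm, Q_Q_apply]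
  have h2 := real_inner_le_norm x (S.Q m x)
  by_cases h0 : ‖S.Q m x‖ = 0
  · rw [h0]; exact norm_nonneg _
  · have h3 : 0 < ‖S.Q m x‖ := lt_of_le_of_ne (norm_nonneg _) (Ne.symm h0)
    nlinarith

theorem Z_tend (x : V) : Tendsto (fun m => S.Z m x) atTop (𝓝 x) := by
  rw [tendsto_iff_norm_sub_tendsto_zero]
  have h1 := S.Q_tend x
  rw [tendsto_iff_norm_sub_tendsto_zero] at h1
  have h2 : Tendsto (fun m => 2 * ‖S.Q m x - x‖) atTop (𝓝 0) := by
    simpa using h1.const_mul 2
  apply squeeze_zero (fun _ => norm_nonneg _) _ h2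
  intro m
  have h3 : S.Z m x - x = - S.Z m (S.Q m x - x) + (S.Q m x - x) := by
    rw [map_sub, S.Z_Q m m x le_rfl]
    abel
  rw [h3]
  refine (norm_add_le _ _).trans ?_
  rw [norm_neg, norm_Z]
  linarith

theorem N_tend (x : V) : Tendsto (fun m => S.N p m x) atTop (𝓝 x) := by
  have h1 : Tendsto (fun m => p.a m • S.Z m x) atTop (𝓝 ((1 : ℝ) • x)) :=
    p.a_tend.smul (S.Z_tend x)
  have h2 : Tendsto (fun m => p.b m • S.X m x) atTop (𝓝 0) := by
    rw [tendsto_zero_iff_norm_tendsto_zero]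
    have h3 : Tendsto (fun m => |p.b m| * ‖x‖) atTop (𝓝 0) := by
      have := p.b_tend.abs
      simpa using this.mul_const ‖x‖
    refine h3.congr ?_
    intro m
    rw [norm_smul, norm_X, Real.norm_eq_abs]
  have h3 := h1.add h2
  rw [one_smul, add_zero] at h3
  exact h3

theorem E_tend (x : V) : Tendsto (fun m => S.E p m x) atTop (𝓝 x) := by
  have h1 : Tendsto (fun m => (1 / 2 : ℝ) • (x + S.N p m x)) atTop (𝓝 x) := by
    have h2 := ((S.N_tend p x).const_add x).const_smul (1 / 2 : ℝ)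
    have h3 : (1 / 2 : ℝ) • (x + x) = x := by module
    rwa [h3] at h2
  rw [tendsto_iff_norm_sub_tendsto_zero] at h1
  have h4 := ((S.Q_tend x).comp (tendsto_add_atTop_nat 1))
  rw [tendsto_iff_norm_sub_tendsto_zero] at h4
  rw [tendsto_iff_norm_sub_tendsto_zero]
  have h5 := h1.add h4
  rw [add_zero] at h5
  apply squeeze_zero (fun _ => norm_nonneg _) _ h5
  intro m
  have h6 : S.E p m x - x = S.Q (m + 1) ((1 / 2 : ℝ) • (x + S.N p m x) - x)
      + (S.Q (m + 1) x - x) := by
    rw [E_apply, map_sub]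
    abel
  rw [h6]
  refine (norm_add_le _ _).trans ?_
  gcongr
  · exact S.norm_Q_le _ _
  · exact le_rfl

theorem P_tend (x : V) : Tendsto (fun m => S.P p m x) atTop (𝓝 x) := by
  have h1 := S.E_tend p (S.PH x)
  have h2 : Tendsto (fun m : ℕ => 2 * m + 2) atTop atTop :=
    tendsto_atTop_mono (fun m => (by omega : m ≤ 2 * m + 2)) tendsto_id
  have h3 := (S.Q_tend (S.PK x)).comp h2
  have h4 := h1.add h3
  rw [PH_add_PK] at h4
  exact h4

theorem P_fin (m : ℕ) : ∃ W : Submodule ℝ V, FiniteDimensional ℝ W ∧ ∀ x, S.P p m x ∈ W := by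
  have := S.Q_fin (m + 1)
  have := S.Q_fin (2 * m + 2)
  refine ⟨LinearMap.range (S.Q (m + 1) : V →ₗ[ℝ] V) ⊔ LinearMap.range (S.Q (2 * m + 2) : V →ₗ[ℝ] V),
    inferInstance, ?_⟩
  intro x
  rw [P_apply]
  apply Submodule.add_mem_sup
  · rw [E_apply]; exact ⟨_, rfl⟩
  · exact ⟨_, rfl⟩

end Sys

end Pool.Agent.Helper640.PiBasis
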