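import Pool.Agent.Helper640.Pi.D

set_option autoImplicit false
set_option linter.deprecated false

open Filter Topology

namespace Pool.Agent.Helper640.PiBasis

variable {V : Type*} [NormedAddCommGroup V] [InnerProductSpace ℝ V]

theorem F_eq_bS (T : ℕ → V →L[ℝ] V) (S : Finset ℕ) (x : V)
    (h : ∀ i ∈ S, 0 ≤ inner ℝ (T i x) x)
    (h' : ∀ i, i ∉ S → inner ℝ (T i x) x ≤ 0) : F T x = bS T S x x := by
  unfold F bS
  rw [real_inner_self_eq_norm_sq, tsum_eq_sum (s := S)]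
  · congr 1
    apply Finset.sum_congr rfl
    intro i hi
    rw [max_eq_left (h i hi)]
  · intro i hi
    rw [max_eq_right (h' i hi), mul_zero]

/-- orthogonality of range and kernel gives symmetry. -/
theorem sy_of_orth (R : V →L[ℝ] V) (hi : ∀ x, R (R x) = R x)
    (h : ∀ w k, R w = w → R k = 0 → inner ℝ w k = 0) : Sy R := by
  intro x y
  have h1 := h (R x) (y - R y) (hi x) (by rw [map_sub, hi, sub_self])
  have h2 := h (R y) (x - R x) (hi y) (by rw [map_sub, hi, sub_self])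
  rw [inner_sub_right] at h1 h2
  linarith [real_inner_comm x (R y), real_inner_comm (R x) (R y)]

theorem comm_of_orth (R D : V →L[ℝ] V) (hi : ∀ x, R (R x) = R x) (hR : Sy R) (hD : Sy D)
    (h : ∀ w k, R w = w → R k = 0 → inner ℝ (D w) k = 0) (x : V) : D (R x) = R (D x) := by
  have key : ∀ x, D (R x) = R (D (R x)) := by
    intro x
    set y := D (R x) with hy
    have h1 := h (R x) (y - R y) (hi x) (by rw [map_sub, hi, sub_self])
    rw [← hy] at h1
    have h2 : inner ℝ (R y) (y - R y) = 0 := by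
      rw [hR, map_sub, hi, sub_self, inner_zero_right]
    have h3 : inner ℝ (y - R y) (y - R y) = 0 := by
      rw [inner_sub_left, h1, h2, sub_self]
    have h4 := inner_self_eq_zero.1 h3
    exact sub_eq_zero.1 h4
  apply ext_inner_right ℝ
  intro v
  have e1 : inner ℝ (R (D x)) v = inner ℝ x (D (R v)) := by rw [hR, hD]
  have e2 : inner ℝ x (R (D (R v))) = inner ℝ (R (D (R x))) v := by
    rw [← hR, ← hD, ← hR]
  rw [e1, key v, e2, ← key x]

namespace Sys

variable (S : Sys V) (p : Par)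

theorem B_form_le (i : ℕ) (v : V) :
    inner ℝ (S.B p i v) v ≤ 2 * p.e i * ‖S.PH v‖ ^ 2 - ‖S.PK v‖ ^ 2 := by
  have h1 := S.B_form p i (S.J_PH v) (S.J_PK v)
  rw [PH_add_PK] at h1
  rw [h1]
  have h2 := S.A_abs p i (S.PH v)
  have h3 := S.X_abs i (S.PK v)
  rw [abs_le] at h2 h3
  nlinarith [p.e_pos i]

/-- Contractive idempotents containing suitable vectors are symmetric and commute with J. -/
structure Nice (R : V →L[ℝ] V) : Prop where
  idem : ∀ x, R (R x) = R x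
  contr : ∀ x, F (S.T p) (R x) ≤ F (S.T p) x
  symm : Sy R
  comm_J : ∀ x, S.J (R x) = R (S.J x)

theorem nice_of (R : V →L[ℝ] V) (idem : ∀ x, R (R x) = R x)
    (contr : ∀ x, F (S.T p) (R x) ≤ F (S.T p) x) (g1 g2 : V) (hg1 : R g1 = g1) (hg2 : R g2 = g2)
    (h1 : ‖S.PH g1‖ ^ 2 < ‖S.PK g1‖ ^ 2) (h2 : ‖S.PK g2‖ ^ 2 < ‖S.PH g2‖ ^ 2)
    (h3 : ‖S.PH g2‖ ^ 2 < 4 * ‖S.PK g2‖ ^ 2) : S.Nice p R := by
  have hJf : ∀ v, inner ℝ (S.J v) v = ‖S.PH v‖ ^ 2 - ‖S.PK v‖ ^ 2 := by
    intro v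
    have := S.J_form (S.J_PH v) (S.J_PK v)
    rwa [PH_add_PK] at this
  have hloc1 : ∀ᶠ v in 𝓝 g1, F (S.T p) v = bS (S.T p) {1} v v := by
    have ho : ∀ᶠ v in 𝓝 g1, ‖S.PH v‖ ^ 2 < ‖S.PK v‖ ^ 2 := by
      exact ContinuousAt.eventually_lt (f := fun v => ‖S.PH v‖ ^ 2)
        (g := fun v => ‖S.PK v‖ ^ 2) (by fun_prop) (by fun_prop) h1
    filter_upwards [ho] with v hv
    apply F_eq_bS
    · intro i hi
      rw [Finset.mem_singleton] at hi
      subst hi
      simp only [T, ContinuousLinearMap.neg_apply, inner_neg_left]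
      rw [hJf]; linarith
    · intro i hi
      match i with
      | 0 => simp only [T]; rw [hJf]; linarith
      | 1 => simp at hi
      | (i + 2) =>
        simp only [T]
        have h5 := S.B_form_le p i v
        have h6 := p.e_le i
        have h7 := p.e_pos i
        nlinarith [sq_nonneg ‖S.PH v‖]
  have hloc2 : ∀ᶠ v in 𝓝 g2, F (S.T p) v = bS (S.T p) {0} v v := by
    have ho : ∀ᶠ v in 𝓝 g2, ‖S.PK v‖ ^ 2 < ‖S.PH v‖ ^ 2 := by
      exact ContinuousAt.eventually_lt (f := fun v => ‖S.PK v‖ ^ 2)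
        (g := fun v => ‖S.PH v‖ ^ 2) (by fun_prop) (by fun_prop) h2
    have ho' : ∀ᶠ v in 𝓝 g2, ‖S.PH v‖ ^ 2 < 4 * ‖S.PK v‖ ^ 2 := by
      exact ContinuousAt.eventually_lt (f := fun v => ‖S.PH v‖ ^ 2)
        (g := fun v => 4 * ‖S.PK v‖ ^ 2) (by fun_prop) (by fun_prop) h3
    filter_upwards [ho, ho'] with v hv hv'
    apply F_eq_bS
    · intro i hi
      rw [Finset.mem_singleton] at hi
      subst hi
      simp only [T]
      rw [hJf]; linarith
    · intro i hi
      match i with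
      | 0 => simp at hi
      | 1 =>
        simp only [T, ContinuousLinearMap.neg_apply, inner_neg_left]
        rw [hJf]; linarith
      | (i + 2) =>
        simp only [T]
        have h5 := S.B_form_le p i v
        have h6 := p.e_le i
        have h7 := p.e_pos i
        nlinarith [sq_nonneg ‖S.PH v‖]
  have e1 : ∀ w k, R w = w → R k = 0 → inner ℝ w k = cc 1 * inner ℝ (S.J w) k := by
    intro w k hw hk
    have := lemmaA (S.good p) R contr g1 hg1 {1} hloc1 w k hw hk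
    unfold bS at this
    simp only [Finset.sum_singleton, T, ContinuousLinearMap.neg_apply, inner_neg_left] at this
    linarith
  have e2 : ∀ w k, R w = w → R k = 0 → inner ℝ w k = - (cc 0 * inner ℝ (S.J w) k) := by
    intro w k hw hk
    have := lemmaA (S.good p) R contr g2 hg2 {0} hloc2 w k hw hk
    unfold bS at this
    simp only [Finset.sum_singleton, T] at this
    linarith
  have e3 : ∀ w k, R w = w → R k = 0 → inner ℝ (S.J w) k = 0 := by
    intro w k hw hk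
    have h5 := e1 w k hw hk
    have h6 := e2 w k hw hk
    have h7 : (cc 0 + cc 1) * inner ℝ (S.J w) k = 0 := by linarith
    have h8 := cc_pos 0
    have h9 := cc_pos 1
    rcases mul_eq_zero.1 h7 with h | h
    · linarith
    · exact h
  have e4 : ∀ w k, R w = w → R k = 0 → inner ℝ w k = 0 := by
    intro w k hw hk
    rw [e1 w k hw hk, e3 w k hw hk, mul_zero]
  have hs := sy_of_orth R idem e4
  exact ⟨idem, contr, hs, comm_of_orth R S.J idem hs S.J_symm e3⟩

/-- The value 2|h|^2 - <X h, h>. -/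
noncomputable def q (h : V) (i : ℕ) : ℝ := 2 * ‖h‖ ^ 2 - inner ℝ (S.X i h) h

theorem q_ge (h : V) (i : ℕ) : ‖h‖ ^ 2 ≤ S.q h i := by
  have := S.X_abs i h
  rw [abs_le] at this
  unfold q; linarith

theorem q_le (h : V) (i : ℕ) : S.q h i ≤ 3 * ‖h‖ ^ 2 := by
  have := S.X_abs i h
  rw [abs_le] at this
  unfold q; linarith

theorem form_s (i : ℕ) {x h : V} (hx : S.J x = x) (hh : S.J h = -h) (s : ℝ) :
    inner ℝ (S.B p i (x + s • h)) (x + s • h) =
      p.e i * inner ℝ (S.A p i x) x - s ^ 2 * S.q h i := by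
  rw [S.B_form p i hx (by rw [map_smul, hh, smul_neg])]
  unfold q
  rw [norm_smul, map_smul, inner_smul_left, inner_smul_right, RCLike.conj_to_real, mul_pow,
    Real.norm_eq_abs, sq_abs]
  ring

theorem star (R : V →L[ℝ] V) (hR : S.Nice p R) (x h : V) (hx : R x = x) (hJx : S.J x = x)
    (hh : R h = h) (hJh : S.J h = -h) (h0 : h ≠ 0) (s : ℝ) (hs : 0 < s)
    (hne : ∀ i, p.e i * inner ℝ (S.A p i x) x ≠ s ^ 2 * S.q h i)
    (hne2 : ‖x‖ ^ 2 ≠ s ^ 2 * ‖h‖ ^ 2) :
    ∃ Fs : Finset ℕ, (∀ i, i ∈ Fs ↔ s ^ 2 * S.q h i < p.e i * inner ℝ (S.A p i x) x) ∧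
      ∀ w k, R w = w → R k = 0 → ∑ i ∈ Fs, cc (i + 2) * inner ℝ (S.B p i w) k = 0 := by
  set g := x + s • h with hg
  have hRg : R g = g := by rw [hg, map_add, map_smul, hx, hh]
  have hJsh : S.J (s • h) = -(s • h) := by rw [map_smul, hJh, smul_neg]
  have hPH : S.PH g = x := by
    rw [hg, map_add, S.PH_of_J hJx, S.PH_of_J' hJsh, add_zero]
  have hPK : S.PK g = s • h := by
    rw [hg, map_add, S.PK_of_J hJx, S.PK_of_J' hJsh, zero_add]
  have hh2 : 0 < ‖h‖ ^ 2 := by positivity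
  have hPKn : ‖S.PK g‖ ^ 2 = s ^ 2 * ‖h‖ ^ 2 := by
    rw [hPK, norm_smul, mul_pow, Real.norm_eq_abs, sq_abs]
  have hPKpos : 0 < ‖S.PK g‖ ^ 2 := by rw [hPKn]; positivity
  -- the threshold
  obtain ⟨M, hM⟩ : ∃ M, ∀ i, M ≤ i → 2 * p.e i * (‖x‖ ^ 2 + 1) < ‖S.PK g‖ ^ 2 / 2 := by
    have h1 : Tendsto (fun i => 2 * p.e i * (‖x‖ ^ 2 + 1)) atTop (𝓝 0) := by
      have := (p.e_tend.const_mul 2).mul_const (‖x‖ ^ 2 + 1)
      simpa using this
    exact eventually_atTop.1 (h1.eventually (gt_mem_nhds (by linarith)))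
  have hfar : ∀ᶠ v in 𝓝 g, ∀ i, M ≤ i → inner ℝ (S.B p i v) v < 0 := by
    have ho : ∀ᶠ v in 𝓝 g, ‖S.PH v‖ ^ 2 < ‖x‖ ^ 2 + 1 := by
      apply IsOpen.mem_nhds (isOpen_lt (by fun_prop) (by fun_prop))
      change ‖S.PH g‖ ^ 2 < ‖x‖ ^ 2 + 1
      rw [hPH]; linarith
    have ho' : ∀ᶠ v in 𝓝 g, ‖S.PK g‖ ^ 2 / 2 < ‖S.PK v‖ ^ 2 := by
      apply IsOpen.mem_nhds (isOpen_lt (by fun_prop) (by fun_prop))
      change ‖S.PK g‖ ^ 2 / 2 < ‖S.PK g‖ ^ 2
      linarith
    filter_upwards [ho, ho'] with v hv hv' i hi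
    have h5 := S.B_form_le p i v
    have h6 := hM i hi
    have h7 := p.e_pos i
    nlinarith
  have hT0 : ∀ i, inner ℝ (S.T p i g) g ≠ 0 := by
    intro i
    match i with
    | 0 =>
      simp only [T]
      rw [hg, S.J_form hJx hJsh, norm_smul, mul_pow, Real.norm_eq_abs, sq_abs]
      exact sub_ne_zero.2 hne2
    | 1 =>
      simp only [T, ContinuousLinearMap.neg_apply, inner_neg_left]
      rw [hg, S.J_form hJx hJsh, norm_smul, mul_pow, Real.norm_eq_abs, sq_abs]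
      exact neg_ne_zero.2 (sub_ne_zero.2 hne2)
    | (i + 2) =>
      simp only [T]
      rw [hg, S.form_s p i hJx hJh]
      exact sub_ne_zero.2 (hne i)
  have hsign : ∀ i, ∀ᶠ v in 𝓝 g, (0 < inner ℝ (S.T p i g) g → 0 < inner ℝ (S.T p i v) v) ∧
      (¬ 0 < inner ℝ (S.T p i g) g → inner ℝ (S.T p i v) v < 0) := by
    intro i
    have hc : Continuous (fun v => inner ℝ (S.T p i v) v) := by fun_prop
    rcases lt_or_gt_of_ne (hT0 i) with h1 | h1
    · have := hc.continuousAt.eventually (gt_mem_nhds h1)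
      filter_upwards [this] with v hv
      exact ⟨fun h2 => absurd h2 (not_lt.2 h1.le), fun _ => hv⟩
    · have := hc.continuousAt.eventually (lt_mem_nhds h1)
      filter_upwards [this] with v hv
      exact ⟨fun _ => hv, fun h2 => absurd h1 h2⟩
  have hall : ∀ᶠ v in 𝓝 g, ∀ i ∈ Finset.range (M + 2),
      (0 < inner ℝ (S.T p i g) g → 0 < inner ℝ (S.T p i v) v) ∧
      (¬ 0 < inner ℝ (S.T p i g) g → inner ℝ (S.T p i v) v < 0) :=
    (Filter.eventually_all_finset _).2 fun i _ => hsign i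
  set Sf := (Finset.range (M + 2)).filter (fun i => 0 < inner ℝ (S.T p i g) g) with hSf
  have hloc : ∀ᶠ v in 𝓝 g, F (S.T p) v = bS (S.T p) Sf v v := by
    filter_upwards [hfar, hall] with v hv hv'
    apply F_eq_bS
    · intro i hi
      rw [hSf, Finset.mem_filter] at hi
      exact ((hv' i hi.1).1 hi.2).le
    · intro i hi
      by_cases hiM : i ∈ Finset.range (M + 2)
      · have : ¬ 0 < inner ℝ (S.T p i g) g := by
          intro h1
          exact hi (by rw [hSf, Finset.mem_filter]; exact ⟨hiM, h1⟩)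
        exact ((hv' i hiM).2 this).le
      · rw [Finset.mem_range, not_lt] at hiM
        obtain ⟨j, rfl⟩ : ∃ j, i = j + 2 := ⟨i - 2, by omega⟩
        exact (hv j (by omega)).le
  have hmem : ∀ i, i + 2 ∈ Sf ↔ s ^ 2 * S.q h i < p.e i * inner ℝ (S.A p i x) x := by
    intro i
    rw [hSf, Finset.mem_filter]
    have h1 : inner ℝ (S.T p (i + 2) g) g = p.e i * inner ℝ (S.A p i x) x - s ^ 2 * S.q h i := by
      simp only [T]
      rw [hg, S.form_s p i hJx hJh]
    constructor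
    · rintro ⟨-, h2⟩
      rw [h1] at h2
      linarith
    · intro h2
      refine ⟨?_, by rw [h1]; linarith⟩
      rw [Finset.mem_range]
      by_contra hcon
      have h3 := hfar.self_of_nhds i (by omega)
      have h4 : inner ℝ (S.B p i g) g = inner ℝ (S.T p (i + 2) g) g := rfl
      rw [h4, h1] at h3
      linarith
  set Fs := (Finset.range M).filter (fun i => i + 2 ∈ Sf) with hFs
  have hFsm : ∀ i, i ∈ Fs ↔ i + 2 ∈ Sf := by
    intro i
    rw [hFs, Finset.mem_filter, Finset.mem_range]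
    constructor
    · exact fun h => h.2
    · intro h
      refine ⟨?_, h⟩
      rw [hSf, Finset.mem_filter, Finset.mem_range] at h
      omega
  refine ⟨Fs, fun i => (hFsm i).trans (hmem i), ?_⟩
  intro w k hw hk
  have h1 := lemmaA (S.good p) R hR.contr g hRg Sf hloc w k hw hk
  unfold bS at h1
  have h2 : inner ℝ w k = 0 := by
    rw [← hw, hR.symm, hk, inner_zero_right]
  have h3 : inner ℝ (S.J w) k = 0 := by
    rw [← hw, hR.comm_J, hR.symm, hk, inner_zero_right]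
  rw [h2, zero_add] at h1
  rw [← h1]
  have h4 : ∑ i ∈ Fs, cc (i + 2) * inner ℝ (S.B p i w) k =
      ∑ j ∈ Fs.image (fun i => i + 2), cc j * inner ℝ (S.T p j w) k := by
    rw [Finset.sum_image (by intro a _ b _ hab; simpa using hab)]
    rfl
  rw [h4]
  apply Finset.sum_subset
  · intro j hj
    rw [Finset.mem_image] at hj
    obtain ⟨i, hi, rfl⟩ := hj
    exact (hFsm i).1 hi
  · intro j hj hj'
    match j with
    | 0 => simp only [T]; rw [h3, mul_zero]
    | 1 => simp only [T, ContinuousLinearMap.neg_apply, inner_neg_left]; rw [h3]; ring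
    | (j + 2) =>
      exact absurd (Finset.mem_image.2 ⟨j, (hFsm j).2 hj, rfl⟩) hj'

theorem exists_s (x h : V) (h0 : h ≠ 0) (lo hi : ℝ) (hlo : 0 ≤ lo) (hlohi : lo < hi) :
    ∃ s : ℝ, 0 < s ∧ lo < s ^ 2 ∧ s ^ 2 < hi ∧
      (∀ i, p.e i * inner ℝ (S.A p i x) x ≠ s ^ 2 * S.q h i) ∧ ‖x‖ ^ 2 ≠ s ^ 2 * ‖h‖ ^ 2 := by
  have hh2 : 0 < ‖h‖ ^ 2 := by positivity
  set C : Set ℝ := Set.range (fun i => p.e i * inner ℝ (S.A p i x) x / S.q h i) ∪
    {‖x‖ ^ 2 / ‖h‖ ^ 2} with hC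
  have hCc : C.Countable := (Set.countable_range _).union (Set.countable_singleton _)
  obtain ⟨σ, hσ1, hσ2⟩ := (hCc.dense_compl ℝ).exists_mem_open isOpen_Ioo
    (Set.nonempty_Ioo.2 hlohi)
  have hσ0 : 0 < σ := lt_of_le_of_lt hlo hσ2.1
  refine ⟨Real.sqrt σ, Real.sqrt_pos.2 hσ0, ?_, ?_, ?_, ?_⟩
  · rw [Real.sq_sqrt hσ0.le]; exact hσ2.1
  · rw [Real.sq_sqrt hσ0.le]; exact hσ2.2
  · intro i hi
    rw [Real.sq_sqrt hσ0.le] at hi
    apply hσ1
    left
    refine ⟨i, ?_⟩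
    have : 0 < S.q h i := lt_of_lt_of_le hh2 (S.q_ge h i)
    simp only
    rw [hi, mul_div_cancel_right₀ _ this.ne']
  · intro hi
    rw [Real.sq_sqrt hσ0.le] at hi
    apply hσ1
    right
    rw [Set.mem_singleton_iff, hi, mul_div_cancel_right₀ _ hh2.ne']

theorem inner_comm_zero {R D : V →L[ℝ] V} (hR : Sy R) (hc : ∀ x, D (R x) = R (D x)) {w k : V}
    (hw : R w = w) (hk : R k = 0) : inner ℝ (D w) k = 0 := by
  rw [← hw, hc, hR, hk, inner_zero_right]

/-- Claim alpha. -/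
theorem claim_alpha (R : V →L[ℝ] V) (hR : S.Nice p R) (x h : V) (hx : R x = x)
    (hJx : S.J x = x) (hh : R h = h) (hJh : S.J h = -h) (h0 : h ≠ 0) (i : ℕ)
    (hlt : ∀ j < i, ∀ y, S.B p j (R y) = R (S.B p j y))
    (hA : (1 - p.a (i / 2)) / 4 * ‖x‖ ^ 2 < inner ℝ (S.A p i x) x) (y : V) :
    S.B p i (R y) = R (S.B p i y) := by
  have hh2 : 0 < ‖h‖ ^ 2 := by positivity
  have hx0 : x ≠ 0 := by
    intro h1
    rw [h1] at hA
    simp at hA
  have hx2 : 0 < ‖x‖ ^ 2 := by positivity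
  set bt := (1 - p.a (i / 2)) / 4 with hbt
  have hbt0 : 0 < bt := by have := p.a_lt (i / 2); rw [hbt]; linarith
  have he := p.e_pos i
  obtain ⟨s, hs0, hs1, hs2, hs3, hs4⟩ := S.exists_s p x h h0
    (p.e i * bt * ‖x‖ ^ 2 / (6 * ‖h‖ ^ 2)) (p.e i * bt * ‖x‖ ^ 2 / (3 * ‖h‖ ^ 2)) (by positivity)
    (by
      apply div_lt_div_of_pos_left (by positivity) (by positivity)
      linarith)
  rw [div_lt_iff₀ (by positivity)] at hs1
  rw [lt_div_iff₀ (by positivity)] at hs2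
  obtain ⟨Fs, hFs, hstar⟩ := S.star p R hR x h hx hJx hh hJh h0 s hs0 hs3 hs4
  apply comm_of_orth R (S.B p i) hR.idem hR.symm (S.sy_B p i)
  intro w k hw hk
  have h1 := hstar w k hw hk
  have hi : i ∈ Fs := by
    rw [hFs]
    have h2 := S.q_le h i
    have h3 : s ^ 2 * S.q h i ≤ s ^ 2 * (3 * ‖h‖ ^ 2) := by
      apply mul_le_mul_of_nonneg_left h2 (by positivity)
    have h4 : p.e i * (bt * ‖x‖ ^ 2) < p.e i * inner ℝ (S.A p i x) x :=
      mul_lt_mul_of_pos_left hA he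
    linarith
  have h5 : ∑ j ∈ Fs, cc (j + 2) * inner ℝ (S.B p j w) k =
      cc (i + 2) * inner ℝ (S.B p i w) k := by
    apply Finset.sum_eq_single_of_mem i hi
    intro j hj hji
    rcases lt_or_gt_of_ne hji with h6 | h6
    · rw [inner_comm_zero hR.symm (hlt j h6) hw hk, mul_zero]
    · exfalso
      rw [hFs] at hj
      have h7 := p.e_lt i j h6
      rw [← hbt] at h7
      have h8 := S.q_ge h j
      have h9 := S.A_abs p j x
      rw [abs_le] at h9
      have h10 := p.e_pos j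
      have h11 : s ^ 2 * ‖h‖ ^ 2 ≤ s ^ 2 * S.q h j := by
        apply mul_le_mul_of_nonneg_left h8 (by positivity)
      have h12 : p.e j * inner ℝ (S.A p j x) x ≤ p.e j * (2 * ‖x‖ ^ 2) :=
        mul_le_mul_of_nonneg_left h9.2 h10.le
      have h13 : 12 * p.e j * ‖x‖ ^ 2 ≤ p.e i * bt * ‖x‖ ^ 2 :=
        mul_le_mul_of_nonneg_right h7 hx2.le
      linarith
  rw [h5] at h1
  rcases mul_eq_zero.1 h1 with h2 | h2
  · exact absurd h2 (cc_pos _).ne'
  · exact h2

end Sys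

end Pool.Agent.Helper640.PiBasis
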