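import Pool.Agent.Helper640.Pi.E1

set_option autoImplicit false
set_option linter.deprecated false

open Filter Topology

namespace Pool.Agent.Helper640.PiBasis

variable {V : Type*} [NormedAddCommGroup V] [InnerProductSpace ℝ V]

namespace Sys

variable (S : Sys V) (p : Par)

theorem X_weak (h e : V) : Tendsto (fun i => inner ℝ (S.X i h) e) atTop (𝓝 0) := by
  rw [tendsto_zero_iff_norm_tendsto_zero]
  have h1 := S.Q_tend h
  have h2 := S.Q_tend e
  rw [tendsto_iff_norm_sub_tendsto_zero] at h1 h2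
  have h3 : Tendsto (fun i => ‖S.Q i h - h‖ * ‖e‖ + ‖h‖ * ‖S.Q i e - e‖) atTop (𝓝 0) := by
    have := (h1.mul_const ‖e‖).add (h2.const_mul ‖h‖)
    simpa using this
  apply squeeze_zero (fun _ => norm_nonneg _) _ h3
  intro i
  have h4 := S.X_Q i i h e le_rfl
  have h5 : inner ℝ (S.X i h) e = - inner ℝ (S.X i (S.Q i h - h)) e
      - inner ℝ (S.X i (S.Q i h)) (S.Q i e - e) := by
    rw [map_sub, inner_sub_left, inner_sub_right, h4]
    ring
  rw [h5, Real.norm_eq_abs]
  have h6 : |inner ℝ (S.X i (S.Q i h - h)) e| ≤ ‖S.Q i h - h‖ * ‖e‖ := by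
    have := abs_real_inner_le_norm (S.X i (S.Q i h - h)) e
    rwa [norm_X] at this
  have h7 : |inner ℝ (S.X i (S.Q i h)) (S.Q i e - e)| ≤ ‖h‖ * ‖S.Q i e - e‖ := by
    have := abs_real_inner_le_norm (S.X i (S.Q i h)) (S.Q i e - e)
    rw [norm_X] at this
    refine this.trans ?_
    exact mul_le_mul_of_nonneg_right (S.norm_Q_le i h) (norm_nonneg _)
  rw [abs_le] at *
  constructor <;> linarith

theorem X_weak_fin (R : V →L[ℝ] V) (hR : Sy R) (W : Submodule ℝ V) (hW : FiniteDimensional ℝ W)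
    (hRW : ∀ x, R x ∈ W) (h : V) : Tendsto (fun i => ‖R (S.X i h)‖) atTop (𝓝 0) := by
  let b := stdOrthonormalBasis ℝ W
  have h1 : ∀ i, ‖R (S.X i h)‖ ^ 2 = ∑ j, inner ℝ (S.X i h) (R (b j : V)) ^ 2 := by
    intro i
    have h2 := b.sum_sq_norm_inner_right (⟨R (S.X i h), hRW _⟩ : W)
    rw [Submodule.coe_norm] at h2
    simp only at h2
    rw [← h2]
    apply Finset.sum_congr rfl
    intro j _
    rw [Real.norm_eq_abs, sq_abs, Submodule.coe_inner]
    simp only
    rw [← hR, real_inner_comm]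
  have h2 : Tendsto (fun i => ‖R (S.X i h)‖ ^ 2) atTop (𝓝 0) := by
    simp_rw [h1]
    have h3 : Tendsto (fun i => ∑ j, inner ℝ (S.X i h) (R (b j : V)) ^ 2) atTop
        (𝓝 (∑ _j : Fin (Module.finrank ℝ W), (0 : ℝ) ^ 2)) := by
      apply tendsto_finset_sum
      intro j _
      exact (S.X_weak h (R (b j : V))).pow 2
    simpa using h3
  have h3 := h2.sqrt
  simpa using h3

/-- Step 7. -/
theorem final_contradiction (R : V →L[ℝ] V) (hR : S.Nice p R) (W : Submodule ℝ V)
    (hW : FiniteDimensional ℝ W) (hRW : ∀ x, R x ∈ W) (x h : V) (hx : R x = x)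
    (hJx : S.J x = x) (hh : R h = h) (hJh : S.J h = -h) (h0 : h ≠ 0)
    (hinf : ∀ M, ∃ i, M ≤ i ∧ 0 < inner ℝ (S.A p i x) x) : False := by
  have hh2 : 0 < ‖h‖ ^ 2 := by positivity
  have hh1 : 0 < ‖h‖ := norm_pos_iff.2 h0
  have hq : ∀ i, 0 < S.q h i := fun i => lt_of_lt_of_le hh2 (S.q_ge h i)
  -- the ratio
  set t : ℕ → ℝ := fun i => p.e i * inner ℝ (S.A p i x) x / S.q h i with ht
  have htmem : ∀ (s : ℝ) i, s ^ 2 * S.q h i < p.e i * inner ℝ (S.A p i x) x ↔ s ^ 2 < t i := by
    intro s i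
    rw [ht]; simp only
    rw [lt_div_iff₀ (hq i)]
  obtain ⟨M, hM⟩ : ∃ M, ∀ i, M ≤ i → ‖R (S.X i h)‖ < ‖h‖ / 2 := by
    have h1 := S.X_weak_fin R hR.symm W hW hRW h
    exact eventually_atTop.1 (h1.eventually (gt_mem_nhds (by linarith)))
  -- choose the first s such that all indices below M with t > 0 are in
  obtain ⟨lo, hlo0, hlo⟩ : ∃ lo : ℝ, 0 < lo ∧ ∀ i < M, 0 < t i → lo ≤ t i := by
    by_cases hne : ((Finset.range M).filter (fun i => 0 < t i)).Nonempty
    · obtain ⟨j, hj, hj'⟩ := Finset.exists_min_image _ t hne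
      rw [Finset.mem_filter] at hj
      refine ⟨t j, hj.2, fun i hi h1 => hj' i ?_⟩
      rw [Finset.mem_filter, Finset.mem_range]
      exact ⟨hi, h1⟩
    · refine ⟨1, one_pos, fun i hi h1 => ?_⟩
      exact absurd ⟨i, by rw [Finset.mem_filter, Finset.mem_range]; exact ⟨hi, h1⟩⟩ hne
  obtain ⟨s1, hs1, -, hs1', hs1a, hs1b⟩ := S.exists_s p x h h0 0 lo le_rfl hlo0
  obtain ⟨F1, hF1, hstar1⟩ := S.star p R hR x h hx hJx hh hJh h0 s1 hs1 hs1a hs1b
  -- choose new index outside F1
  obtain ⟨N, hN⟩ : ∃ N, ∀ i ∈ F1, i < N := by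
    refine ⟨F1.sup id + 1, fun i hi => ?_⟩
    have := Finset.le_sup (f := id) hi
    simp only [id] at this
    omega
  obtain ⟨i0, hi0, hi0'⟩ := hinf (max M N)
  have hi0F1 : i0 ∉ F1 := fun h1 => by
    have := hN i0 h1
    have := le_max_right M N
    omega
  have hti0 : 0 < t i0 := by
    rw [ht]; simp only
    exact div_pos (mul_pos (p.e_pos _) hi0') (hq _)
  obtain ⟨s2, hs2, -, hs2', hs2a, hs2b⟩ := S.exists_s p x h h0 0 (t i0) le_rfl hti0
  obtain ⟨F2, hF2, hstar2⟩ := S.star p R hR x h hx hJx hh hJh h0 s2 hs2 hs2a hs2b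
  have hi0F2 : i0 ∈ F2 := by rw [hF2, htmem]; exact hs2'
  have hsub : F1 ⊆ F2 := by
    intro i hi
    rw [hF1, htmem] at hi
    rw [hF2, htmem]
    have h1 : ¬ s1 ^ 2 < t i0 := by
      intro h2
      rw [← htmem, ← hF1] at h2
      exact hi0F1 h2
    linarith
  set D := F2 \ F1 with hD
  have hDne : D.Nonempty := ⟨i0, by rw [hD, Finset.mem_sdiff]; exact ⟨hi0F2, hi0F1⟩⟩
  have hDM : ∀ i ∈ D, M ≤ i := by
    intro i hi
    rw [hD, Finset.mem_sdiff] at hi
    by_contra hcon
    push Not at hcon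
    have h1 := (hF2 i).1 hi.1
    rw [htmem] at h1
    have h2 : 0 < t i := lt_of_le_of_lt (sq_nonneg _) h1
    have h3 := hlo i hcon h2
    apply hi.2
    rw [hF1, htmem]
    linarith
  have hDsum : ∀ w k, R w = w → R k = 0 →
      ∑ i ∈ D, cc (i + 2) * inner ℝ (S.B p i w) k = 0 := by
    intro w k hw hk
    have h1 := hstar1 w k hw hk
    have h2 := hstar2 w k hw hk
    have h3 := Finset.sum_sdiff (f := fun i => cc (i + 2) * inner ℝ (S.B p i w) k) hsub
    rw [h1, h2, add_zero] at h3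
    exact h3
  -- minimal index of D
  obtain ⟨m, hmD, hmin⟩ := Finset.exists_min_image D id hDne
  simp only [id] at hmin
  -- the test vector
  set k := S.X m h - R (S.X m h) with hk
  have hRk : R k = 0 := by rw [hk, map_sub, hR.idem, sub_self]
  have h1 := hDsum h k hh hRk
  have h2 : ∀ i, inner ℝ (S.B p i h) k = inner ℝ (S.X i h) k := by
    intro i
    have h3 : inner ℝ h k = 0 := by rw [← hh, hR.symm, hRk, inner_zero_right]
    rw [S.B_apply_K p i hJh, inner_sub_left, inner_smul_left, h3, mul_zero, sub_zero]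
  simp_rw [h2] at h1
  have h3 : ∑ i ∈ D, cc (i + 2) * inner ℝ (S.X i h) k =
      cc (m + 2) * inner ℝ (S.X m h) k + ∑ i ∈ D.erase m, cc (i + 2) * inner ℝ (S.X i h) k :=
    (Finset.add_sum_erase D _ hmD).symm
  rw [h3] at h1
  -- main term
  have h4 : inner ℝ (S.X m h) k = ‖k‖ ^ 2 := by
    have h5 : inner ℝ (R (S.X m h)) k = 0 := by rw [hR.symm, hRk, inner_zero_right]
    rw [← real_inner_self_eq_norm_sq]
    conv_rhs => rw [hk, inner_sub_left, ← hk, h5, sub_zero]
  have h5 : ‖h‖ / 2 < ‖k‖ := by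
    have h6 : ‖S.X m h‖ - ‖R (S.X m h)‖ ≤ ‖k‖ := norm_sub_norm_le _ _
    rw [norm_X] at h6
    have := hM m (hDM m hmD)
    linarith
  -- tail
  have h6 : |∑ i ∈ D.erase m, cc (i + 2) * inner ℝ (S.X i h) k| ≤
      cc (m + 2) / 7 * (‖h‖ * ‖k‖) := by
    refine (Finset.abs_sum_le_sum_abs _ _).trans ?_
    have h7 : ∀ i ∈ D.erase m, |cc (i + 2) * inner ℝ (S.X i h) k| ≤ cc (i + 2) * (‖h‖ * ‖k‖) := by
      intro i _
      rw [abs_mul, abs_of_pos (cc_pos _)]
      apply mul_le_mul_of_nonneg_left _ (cc_pos _).le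
      have := abs_real_inner_le_norm (S.X i h) k
      rwa [norm_X] at this
    refine (Finset.sum_le_sum h7).trans ?_
    rw [← Finset.sum_mul]
    apply mul_le_mul_of_nonneg_right _ (by positivity)
    have h8 : ∑ i ∈ D.erase m, cc (i + 2) = ∑ j ∈ (D.erase m).image (fun i => i + 2), cc j := by
      rw [Finset.sum_image (by intro a _ b _ hab; simpa using hab)]
    rw [h8]
    apply cc_tail
    intro j hj
    rw [Finset.mem_image] at hj
    obtain ⟨i, hi, rfl⟩ := hj
    rw [Finset.mem_erase] at hi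
    have := hmin i hi.2
    have := hi.1
    omega
  rw [h4] at h1
  have h7 : cc (m + 2) * ‖k‖ ^ 2 ≤ cc (m + 2) / 7 * (‖h‖ * ‖k‖) := by
    have h8 := (abs_le.1 h6).1
    linarith
  have h8 := cc_pos (m + 2)
  have h9 : ‖k‖ ^ 2 ≤ 1 / 7 * (‖h‖ * ‖k‖) := by
    have h10 : cc (m + 2) * ‖k‖ ^ 2 ≤ cc (m + 2) * (1 / 7 * (‖h‖ * ‖k‖)) := by linarith
    exact le_of_mul_le_mul_left h10 h8
  nlinarith

/-- A commuting with R on the first half -/
theorem A_comm (R : V →L[ℝ] V) (hR : S.Nice p R) (i : ℕ)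
    (hc : ∀ y, S.B p i (R y) = R (S.B p i y)) {x : V} (hJx : S.J x = x) :
    S.A p i (R x) = R (S.A p i x) := by
  have h1 := hc x
  have h2 : S.J (R x) = R x := by rw [hR.comm_J, hJx]
  rw [S.B_apply_H p i h2, S.B_apply_H p i hJx, map_smul] at h1
  exact smul_right_injective V (p.e_pos i).ne' h1

theorem N'_comm (R : V →L[ℝ] V) (hR : S.Nice p R) (k : ℕ)
    (hc : ∀ y, S.B p (2 * k) (R y) = R (S.B p (2 * k) y)) {x : V} (hJx : S.J x = x) :
    S.N' p k (R x) = R (S.N' p k x) := by
  have hsq : ∀ y, S.A p (2 * k) (S.A p (2 * k) y) =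
      (1 + p.c k ^ 2) • y - (2 * p.c k) • S.N' p k y := by
    intro y
    have h1 : ∀ z, S.A p (2 * k) z = S.Zt k (S.N' p k z - p.c k • z) := by
      intro z
      rw [A_even]
      rfl
    rw [h1, h1, ← comm_apply (S.Zt_N' p k k (by omega)), ← map_smul, ← map_sub, Zt_Zt_apply,
      map_sub, N'_N'_apply, map_smul]
    module
  have h2 : S.J (R x) = R x := by rw [hR.comm_J, hJx]
  have h3 : S.A p (2 * k) (S.A p (2 * k) (R x)) = R (S.A p (2 * k) (S.A p (2 * k) x)) := by
    rw [S.A_comm p R hR (2 * k) hc hJx, S.A_comm p R hR (2 * k) hc (S.J_apply_A p _ hJx)]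
  rw [hsq, hsq, map_sub, map_smul, map_smul] at h3
  have h4 : (2 * p.c k) • S.N' p k (R x) = (2 * p.c k) • R (S.N' p k x) := by
    exact sub_right_injective h3
  have h5 : 2 * p.c k ≠ 0 := by
    have := p.c_ge k
    have := p.a'_ge k
    linarith
  exact smul_right_injective V h5 h4

theorem N_comm (R : V →L[ℝ] V) (hR : S.Nice p R) (k : ℕ)
    (hc : ∀ y, S.B p (2 * k + 1) (R y) = R (S.B p (2 * k + 1) y)) {x : V} (hJx : S.J x = x) :
    S.N p k (R x) = R (S.N p k x) := by
  have h1 := S.A_comm p R hR (2 * k + 1) hc hJx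
  rw [A_odd] at h1
  have h2 : S.N p k (R x) - p.a k • R x = R (S.N p k x - p.a k • x) := h1
  rw [map_sub, map_smul] at h2
  exact sub_left_injective h2

theorem ZX_comm (R : V →L[ℝ] V) (k : ℕ) {x : V} (h1 : S.N p k (R x) = R (S.N p k x))
    (h2 : S.N' p k (R x) = R (S.N' p k x)) :
    S.Z k (R x) = R (S.Z k x) ∧ S.X k (R x) = R (S.X k x) := by
  have hd := p.det k
  have hZ : ∀ y, (p.a k * p.b' k - p.a' k * p.b k) • S.Z k y =
      p.b' k • S.N p k y - p.b k • S.N' p k y := by
    intro y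
    unfold N N'
    simp only [ContinuousLinearMap.add_apply, ContinuousLinearMap.smul_apply]
    module
  have hX : ∀ y, (p.a k * p.b' k - p.a' k * p.b k) • S.X k y =
      p.a k • S.N' p k y - p.a' k • S.N p k y := by
    intro y
    unfold N N'
    simp only [ContinuousLinearMap.add_apply, ContinuousLinearMap.smul_apply]
    module
  constructor
  · apply smul_right_injective V hd
    simp only
    rw [hZ (R x), ← map_smul R, hZ x, map_sub, map_smul, map_smul, h1, h2]
  · apply smul_right_injective V hd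
    simp only
    rw [hX (R x), ← map_smul R, hX x, map_sub, map_smul, map_smul, h1, h2]

theorem compress' (k : ℕ) {y : V} (hy : S.N' p k y = y) :
    inner ℝ (S.N p k y) y = p.c k * ‖y‖ ^ 2 := by
  have h1 : inner ℝ (S.N p k y) y = inner ℝ (S.N' p k (S.N p k y)) y := by
    rw [S.sy_N' p k (S.N p k y) y, hy]
  have h2 : S.N' p k (S.N p k y) = (2 * p.c k) • y - S.N p k (S.N' p k y) := by
    rw [N_N'_apply]; abel
  rw [h2, hy, inner_sub_left, inner_smul_left, RCLike.conj_to_real,
    real_inner_self_eq_norm_sq] at h1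
  linarith

theorem Z_o (k : ℕ) : S.Z k S.o = S.o := by
  have := S.Z_Q 0 k S.o (Nat.zero_le _)
  rwa [S.Q_o] at this

theorem X_o (k : ℕ) : inner ℝ (S.X k S.o) S.o = 0 := by
  have := S.X_Q 0 k S.o S.o (Nat.zero_le _)
  rwa [S.Q_o] at this

theorem N_o (k : ℕ) : inner ℝ (S.N p k S.o) S.o = p.a k := by
  unfold N
  rw [ContinuousLinearMap.add_apply, ContinuousLinearMap.smul_apply,
    ContinuousLinearMap.smul_apply, inner_add_left, inner_smul_left, inner_smul_left, X_o, Z_o,
    real_inner_self_eq_norm_sq, S.o_norm]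
  simp

theorem N'_o (k : ℕ) : inner ℝ (S.N' p k S.o) S.o = p.a' k := by
  unfold N'
  rw [ContinuousLinearMap.add_apply, ContinuousLinearMap.smul_apply,
    ContinuousLinearMap.smul_apply, inner_add_left, inner_smul_left, inner_smul_left, X_o, Z_o,
    real_inner_self_eq_norm_sq, S.o_norm]
  simp

theorem J_apply_N (k : ℕ) {x : V} (hx : S.J x = x) : S.J (S.N p k x) = S.N p k x := by
  rw [comm_apply (S.J_N p k), hx]

theorem J_apply_N' (k : ℕ) {x : V} (hx : S.J x = x) : S.J (S.N' p k x) = S.N' p k x := by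
  rw [comm_apply (S.J_N' p k), hx]

theorem J_apply_Z (k : ℕ) {x : V} (hx : S.J x = x) : S.J (S.Z k x) = S.Z k x := by
  rw [comm_apply (S.J_Z k), hx]

/-- test vectors -/
theorem test_vec (i : ℕ) : ∃ y, S.J y = y ∧
    (1 - p.a (i / 2)) / 4 * ‖y‖ ^ 2 < inner ℝ (S.A p i y) y := by
  rcases Nat.even_or_odd' i with ⟨k, rfl | rfl⟩
  · rw [show 2 * k / 2 = k by omega]
    have h1 := p.a_lt k
    have h2 := p.a_nonneg k
    have h3 := p.a'_lt k
    have h4 := c_nonneg p k
    set w := S.o - S.N' p k S.o with hw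
    have hN : S.N' p k w = - w := by rw [hw, map_sub, N'_N'_apply]; abel
    have hJw : S.J w = w := by rw [hw, map_sub, S.J_apply_N' p k S.J_o, S.J_o]
    have hnw : ‖w‖ ^ 2 = 2 - 2 * p.a' k := by
      rw [← real_inner_self_eq_norm_sq, hw, inner_sub_left, inner_sub_right, inner_sub_right,
        real_inner_comm (S.N' p k S.o) S.o, N'_o, real_inner_self_eq_norm_sq,
        real_inner_self_eq_norm_sq, S.norm_N', S.o_norm]
      ring
    -- general computation
    have gen : ∀ y, S.N' p k y = -y → S.Zt k y = -y →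
        inner ℝ (S.A p (2 * k) y) y = (1 + p.c k) * ‖y‖ ^ 2 := by
      intro y hy1 hy2
      have h5 : S.A p (2 * k) y = S.Zt k (S.N' p k y - p.c k • y) := by rw [A_even]; rfl
      rw [h5, S.sy_Zt, hy1, hy2, inner_neg_right, inner_sub_left, inner_neg_left, inner_smul_left,
        RCLike.conj_to_real, real_inner_self_eq_norm_sq]
      ring
    match k with
    | 0 =>
      refine ⟨w, hJw, ?_⟩
      rw [gen w hN (by simp [Zt]), hnw]
      nlinarith
    | (j + 1) =>
      refine ⟨S.X j w, S.J_apply_X j hJw, ?_⟩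
      have hZw : S.Z j w = w := by
        rw [hw, map_sub, Z_o, comm_apply (S.Z_N' p j (j + 1) (by omega)), Z_o]
      have e1 : S.N' p (j + 1) (S.X j w) = - S.X j w := by
        rw [← comm_apply (S.X_N' p j (j + 1) (by omega)), hN, map_neg]
      have e2 : S.Zt (j + 1) (S.X j w) = - S.X j w := by
        simp only [Zt]
        have := S.X_Z_apply j w
        rw [hZw] at this
        exact (neg_eq_iff_eq_neg.2 this).symm
      rw [gen _ e1 e2, norm_X, hnw]
      nlinarith
  · rw [show (2 * k + 1) / 2 = k by omega]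
    have h1 := p.a_lt k
    have h2 := p.a_nonneg k
    set y := S.o + S.N p k S.o with hy
    have hN : S.N p k y = y := by rw [hy, map_add, N_N_apply]; abel
    have hJy : S.J y = y := by rw [hy, map_add, S.J_apply_N p k S.J_o, S.J_o]
    have hny : ‖y‖ ^ 2 = 2 + 2 * p.a k := by
      rw [← real_inner_self_eq_norm_sq, hy, inner_add_left, inner_add_right, inner_add_right,
        real_inner_comm (S.N p k S.o) S.o, N_o, real_inner_self_eq_norm_sq,
        real_inner_self_eq_norm_sq, S.norm_N, S.o_norm]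
      ring
    refine ⟨y, hJy, ?_⟩
    have h5 : S.A p (2 * k + 1) y = S.N p k y - p.a k • y := by rw [A_odd]; rfl
    rw [h5, hN, inner_sub_left, inner_smul_left, RCLike.conj_to_real, real_inner_self_eq_norm_sq,
      hny]
    nlinarith

/-- Step 5. -/
theorem step5 (R : V →L[ℝ] V) (hR : S.Nice p R) (h : V) (hh : R h = h) (hJh : S.J h = -h)
    (h0 : h ≠ 0) (ho : ‖R S.o - S.o‖ ≤ 1 / 4) (i : ℕ)
    (hlt : ∀ j < i, ∀ y, S.B p j (R y) = R (S.B p j y))
    (hnc : ¬ ∀ y, S.B p i (R y) = R (S.B p i y)) :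
    ∃ k, i = 2 * k ∧ ∀ x, R x = x → S.J x = x → x ≠ 0 → 0 < inner ℝ (S.A p (2 * k + 1) x) x := by
  have hle : ∀ x, R x = x → S.J x = x →
      inner ℝ (S.A p i x) x ≤ (1 - p.a (i / 2)) / 4 * ‖x‖ ^ 2 := by
    intro x hx hJx
    by_contra hcon
    push Not at hcon
    exact hnc (S.claim_alpha p R hR x h hx hJx hh hJh h0 i hlt hcon)
  rcases Nat.even_or_odd' i with ⟨k, rfl | rfl⟩
  · refine ⟨k, rfl, ?_⟩
    rw [show 2 * k / 2 = k by omega] at hle
    have hAe : ∀ y, S.A p (2 * k) y = S.Zt k (S.N' p k y - p.c k • y) := by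
      intro y; rw [A_even]; rfl
    -- vectors with Zt y = -y
    have base : ∀ y, R y = y → S.J y = y → S.Zt k y = -y →
        (p.c k - (1 - p.a k) / 4) * ‖y‖ ^ 2 ≤ inner ℝ (S.N' p k y) y := by
      intro y h1 h2 h3
      have h4 := hle y h1 h2
      rw [hAe, S.sy_Zt, h3, inner_neg_right, inner_sub_left, inner_smul_left,
        RCLike.conj_to_real, real_inner_self_eq_norm_sq] at h4
      linarith
    have all : ∀ x, R x = x → S.J x = x →
        (p.c k - (1 - p.a k) / 4) * ‖x‖ ^ 2 ≤ inner ℝ (S.N' p k x) x := by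
      match k with
      | 0 =>
        intro x h1 h2
        exact base x h1 h2 (by simp [Zt])
      | (j + 1) =>
        intro x h1 h2
        have hN : S.N p j (R x) = R (S.N p j x) := S.N_comm p R hR j (hlt _ (by omega)) h2
        have hN' : S.N' p j (R x) = R (S.N' p j x) := S.N'_comm p R hR j (hlt _ (by omega)) h2
        have hZ := (S.ZX_comm p R j hN hN').1
        set x0 := (1 / 2 : ℝ) • (x + S.Z j x) with hx0
        set x1 := (1 / 2 : ℝ) • (x - S.Z j x) with hx1
        have hx01 : x0 + x1 = x := by rw [hx0, hx1]; module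
        have hRZ : R (S.Z j x) = S.Z j x := by rw [← hZ, h1]
        have hRx0 : R x0 = x0 := by rw [hx0, map_smul, map_add, h1, hRZ]
        have hRx1 : R x1 = x1 := by rw [hx1, map_smul, map_sub, h1, hRZ]
        have hJx0 : S.J x0 = x0 := by rw [hx0, map_smul, map_add, h2, S.J_apply_Z j h2]
        have hJx1 : S.J x1 = x1 := by rw [hx1, map_smul, map_sub, h2, S.J_apply_Z j h2]
        have hZx0 : S.Z j x0 = x0 := by rw [hx0, map_smul, map_add, Z_Z_apply, add_comm]
        have hZx1 : S.Z j x1 = - x1 := by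
          rw [hx1, map_smul, map_sub, Z_Z_apply]; module
        -- X j x0 in the range
        have hX0 : S.X j (R x0) = R (S.X j x0) :=
          (S.ZX_comm p R j (S.N_comm p R hR j (hlt _ (by omega)) hJx0)
            (S.N'_comm p R hR j (hlt _ (by omega)) hJx0)).2
        have e1 : R (S.X j x0) = S.X j x0 := by rw [← hX0, hRx0]
        have e2 : S.Zt (j + 1) (S.X j x0) = - S.X j x0 := by
          simp only [Zt]
          have := S.X_Z_apply j x0
          rw [hZx0] at this
          exact (neg_eq_iff_eq_neg.2 this).symm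
        have e3 := base (S.X j x0) e1 (S.J_apply_X j hJx0) e2
        have e4 : inner ℝ (S.N' p (j + 1) (S.X j x0)) (S.X j x0) =
            inner ℝ (S.N' p (j + 1) x0) x0 := by
          rw [← comm_apply (S.X_N' p j (j + 1) (by omega)), S.X_symm, X_X_apply]
        rw [e4, norm_X] at e3
        have e5 := base x1 hRx1 hJx1 (by simpa [Zt] using hZx1)
        have e6 : inner ℝ (S.N' p (j + 1) x0) x1 = 0 := by
          have e7 : inner ℝ (S.N' p (j + 1) x0) x1 = inner ℝ (S.N' p (j + 1) x0) (S.Z j x1) := by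
            rw [← S.Z_symm, comm_apply (S.Z_N' p j (j + 1) (by omega)), hZx0]
          rw [hZx1, inner_neg_right] at e7
          linarith
        have e7 : inner ℝ x0 x1 = 0 := by
          have e8 : inner ℝ x0 x1 = inner ℝ x0 (S.Z j x1) := by
            rw [← S.Z_symm, hZx0]
          rw [hZx1, inner_neg_right] at e8
          linarith
        have e8 : ‖x‖ ^ 2 = ‖x0‖ ^ 2 + ‖x1‖ ^ 2 := by
          rw [← hx01, ← real_inner_self_eq_norm_sq, inner_add_left, inner_add_right,
            inner_add_right, e7, real_inner_comm x0 x1, e7, real_inner_self_eq_norm_sq,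
            real_inner_self_eq_norm_sq]
          ring
        have e9 : inner ℝ (S.N' p (j + 1) x) x = inner ℝ (S.N' p (j + 1) x0) x0 +
            inner ℝ (S.N' p (j + 1) x1) x1 := by
          have e10 : inner ℝ (S.N' p (j + 1) x1) x0 = 0 := by
            rw [S.sy_N', real_inner_comm, e6]
          conv_lhs => rw [← hx01]
          rw [map_add, inner_add_left, inner_add_right, inner_add_right, e6, e10]
          ring
        rw [e8, e9]
        linarith
    intro x hx hJx hx0
    have h1 := all x hx hJx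
    have hx2 : 0 < ‖x‖ ^ 2 := by positivity
    have h2 : S.A p (2 * k + 1) x = S.N p k x - p.a k • x := by rw [A_odd]; rfl
    rw [h2, inner_sub_left, inner_smul_left, RCLike.conj_to_real, real_inner_self_eq_norm_sq]
    have h3 : inner ℝ (S.N p k x) x = inner ℝ (S.N' p k x) x +
        (p.a k - p.a' k) * inner ℝ (S.Z k x) x + (p.b k - p.b' k) * inner ℝ (S.X k x) x := by
      unfold N N'
      simp only [ContinuousLinearMap.add_apply, ContinuousLinearMap.smul_apply, inner_add_left,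
        inner_smul_left, RCLike.conj_to_real]
      ring
    have h4 : -(|p.a k - p.a' k| * ‖x‖ ^ 2) ≤ (p.a k - p.a' k) * inner ℝ (S.Z k x) x := by
      have h5 : |(p.a k - p.a' k) * inner ℝ (S.Z k x) x| ≤ |p.a k - p.a' k| * ‖x‖ ^ 2 := by
        rw [abs_mul]
        apply mul_le_mul_of_nonneg_left _ (abs_nonneg _)
        have := abs_real_inner_le_norm (S.Z k x) x
        rw [norm_Z] at this
        rwa [pow_two]
      exact (abs_le.1 h5).1
    have h5 : -(|p.b k - p.b' k| * ‖x‖ ^ 2) ≤ (p.b k - p.b' k) * inner ℝ (S.X k x) x := by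
      have h5 : |(p.b k - p.b' k) * inner ℝ (S.X k x) x| ≤ |p.b k - p.b' k| * ‖x‖ ^ 2 := by
        rw [abs_mul]
        apply mul_le_mul_of_nonneg_left _ (abs_nonneg _)
        exact S.X_abs k x
      exact (abs_le.1 h5).1
    rw [h3]
    have h6 := p.key k
    have h7 : 0 < (3 / 4 * (1 - p.a k) - (1 - p.c k) - |p.a k - p.a' k| - |p.b k - p.b' k|)
        * ‖x‖ ^ 2 := mul_pos (by linarith) hx2
    linarith
  · exfalso
    rw [show (2 * k + 1) / 2 = k by omega] at hle
    have hJRo : S.J (R S.o) = R S.o := by rw [hR.comm_J, S.J_o]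
    have hN' : S.N' p k (R S.o) = R (S.N' p k S.o) :=
      S.N'_comm p R hR k (hlt _ (by omega)) S.J_o
    have hRN' : R (S.N' p k (R S.o)) = S.N' p k (R S.o) := by
      rw [hN', hR.idem]
    set x := (1 / 2 : ℝ) • (R S.o + S.N' p k (R S.o)) with hx
    have hRx : R x = x := by rw [hx, map_smul, map_add, hR.idem, hRN']
    have hJx : S.J x = x := by
      rw [hx, map_smul, map_add, hJRo, S.J_apply_N' p k hJRo]
    have hNx : S.N' p k x = x := by
      rw [hx, map_smul, map_add, N'_N'_apply, add_comm]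
    have h1 := hle x hRx hJx
    have h2 : S.A p (2 * k + 1) x = S.N p k x - p.a k • x := by rw [A_odd]; rfl
    rw [h2, inner_sub_left, inner_smul_left, RCLike.conj_to_real, real_inner_self_eq_norm_sq,
      S.compress' p k hNx] at h1
    have h3 := p.c_gt k
    have h4 : ‖x‖ ^ 2 = 0 := by
      have h5 : (p.c k - p.a k - (1 - p.a k) / 4) * ‖x‖ ^ 2 ≤ 0 := by linarith
      have h6 := sq_nonneg ‖x‖
      nlinarith
    have h5 : x = 0 := by
      rw [pow_eq_zero_iff two_ne_zero, norm_eq_zero] at h4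
      exact h4
    -- but x is close to (1/2)(o + N' o)
    set z := (1 / 2 : ℝ) • (S.o + S.N' p k S.o) with hz
    have h6 : ‖z‖ ^ 2 = (1 + p.a' k) / 2 := by
      rw [hz, norm_smul, mul_pow, ← real_inner_self_eq_norm_sq (S.o + S.N' p k S.o),
        inner_add_left, inner_add_right, inner_add_right,
        real_inner_comm (S.N' p k S.o) S.o, N'_o, real_inner_self_eq_norm_sq,
        real_inner_self_eq_norm_sq, S.norm_N', S.o_norm, Real.norm_eq_abs, sq_abs]
      ring
    have h7 : ‖z‖ ≤ 1 / 4 := by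
      have h8 : z = - ((1 / 2 : ℝ) • ((R S.o - S.o) + S.N' p k (R S.o - S.o))) := by
        have h9 : x - z = (1 / 2 : ℝ) • ((R S.o - S.o) + S.N' p k (R S.o - S.o)) := by
          rw [hx, hz, map_sub]; module
        rw [← h9, h5]; simp
      rw [h8, norm_neg, norm_smul]
      have h9 : ‖(R S.o - S.o) + S.N' p k (R S.o - S.o)‖ ≤ 1 / 4 + 1 / 4 := by
        refine (norm_add_le _ _).trans ?_
        rw [S.norm_N']
        linarith
      rw [Real.norm_eq_abs, abs_of_pos (by norm_num : (0 : ℝ) < 1 / 2)]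
      linarith
    have h8 := p.a'_ge k
    have h9 := norm_nonneg z
    nlinarith

/-- There is no nested sequence of contractive finite rank projections. -/
theorem no_small (R : ℕ → V →L[ℝ] V) (idem : ∀ n x, R n (R n x) = R n x)
    (contr : ∀ n x, F (S.T p) (R n x) ≤ F (S.T p) x)
    (fin : ∀ n, ∃ W : Submodule ℝ V, FiniteDimensional ℝ W ∧ ∀ x, R n x ∈ W)
    (tend : ∀ x, Tendsto (fun n => R n x) atTop (𝓝 x))
    (nest : ∀ m n, m ≤ n → ∀ x, R n (R m x) = R m x) : False := by
  have ho0 : S.o ≠ 0 := by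
    intro h; have := S.o_norm; rw [h, norm_zero] at this; norm_num at this
  have ho'0 : S.o' ≠ 0 := by
    intro h; have := S.o'_norm; rw [h, norm_zero] at this; norm_num at this
  -- (1) eventually nice
  have hnice : ∀ᶠ n in atTop, S.Nice p (R n) := by
    have c1 : ∀ v, Tendsto (fun n => ‖S.PH (R n v)‖ ^ 2) atTop (𝓝 (‖S.PH v‖ ^ 2)) := by
      intro v
      exact (((S.PH.continuous.tendsto v).comp (tend v)).norm).pow 2
    have c2 : ∀ v, Tendsto (fun n => ‖S.PK (R n v)‖ ^ 2) atTop (𝓝 (‖S.PK v‖ ^ 2)) := by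
      intro v
      exact (((S.PK.continuous.tendsto v).comp (tend v)).norm).pow 2
    have d1 : S.PH S.o' = 0 := S.PH_of_J' S.J_o'
    have d2 : S.PK S.o' = S.o' := S.PK_of_J' S.J_o'
    have d3 : S.PH ((5 / 4 : ℝ) • S.o + S.o') = (5 / 4 : ℝ) • S.o := by
      rw [map_add, d1, map_smul, S.PH_of_J S.J_o, add_zero]
    have d4 : S.PK ((5 / 4 : ℝ) • S.o + S.o') = S.o' := by
      rw [map_add, d2, map_smul, S.PK_of_J S.J_o, smul_zero, zero_add]
    have n3 : ‖(5 / 4 : ℝ) • S.o‖ ^ 2 = 25 / 16 := by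
      rw [norm_smul, S.o_norm, Real.norm_eq_abs]
      norm_num
    have n4 : ‖S.o'‖ ^ 2 = 1 := by rw [S.o'_norm]; norm_num
    have e1 : ∀ᶠ n in atTop, ‖S.PH (R n S.o')‖ ^ 2 < ‖S.PK (R n S.o')‖ ^ 2 := by
      apply (c1 S.o').eventually_lt (c2 S.o')
      rw [d1, d2, n4]; simp
    have e2 : ∀ᶠ n in atTop, ‖S.PK (R n ((5 / 4 : ℝ) • S.o + S.o'))‖ ^ 2 <
        ‖S.PH (R n ((5 / 4 : ℝ) • S.o + S.o'))‖ ^ 2 := by
      apply (c2 _).eventually_lt (c1 _)
      rw [d3, d4, n3, n4]; norm_num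
    have e3 : ∀ᶠ n in atTop, ‖S.PH (R n ((5 / 4 : ℝ) • S.o + S.o'))‖ ^ 2 <
        4 * ‖S.PK (R n ((5 / 4 : ℝ) • S.o + S.o'))‖ ^ 2 := by
      apply (c1 _).eventually_lt ((c2 _).const_mul 4)
      rw [d3, d4, n3, n4]; norm_num
    filter_upwards [e1, e2, e3] with n h1 h2 h3
    exact S.nice_of p (R n) (idem n) (contr n) _ _ (idem n _) (idem n _) h1 h2 h3
  -- (2) nonzero vectors
  have hh0 : ∀ᶠ n in atTop, R n S.o' ≠ 0 := (tend S.o').eventually_ne ho'0
  have hoo : ∀ᶠ n in atTop, ‖R n S.o - S.o‖ ≤ 1 / 4 := by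
    have h1 := tend S.o
    rw [tendsto_iff_norm_sub_tendsto_zero] at h1
    exact h1.eventually (ge_mem_nhds (by norm_num))
  have hJh : ∀ n, S.Nice p (R n) → S.J (R n S.o') = - R n S.o' := by
    intro n hn
    rw [hn.comm_J, S.J_o', map_neg]
  -- (3) each B i eventually commutes
  have hcomm : ∀ i, ∀ᶠ n in atTop, ∀ y, S.B p i (R n y) = R n (S.B p i y) := by
    intro i
    induction i using Nat.strong_induction_on with
    | _ i ih =>
      have ih' : ∀ᶠ n in atTop, ∀ j ∈ Finset.range i, ∀ y, S.B p j (R n y) = R n (S.B p j y) :=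
        (Filter.eventually_all_finset _).2 fun j hj => ih j (Finset.mem_range.1 hj)
      obtain ⟨y, hJy, hy⟩ := S.test_vec p i
      have hlim : ∀ᶠ n in atTop, (1 - p.a (i / 2)) / 4 * ‖R n y‖ ^ 2 <
          inner ℝ (S.A p i (R n y)) (R n y) := by
        apply Tendsto.eventually_lt _ _ hy
        · exact ((tend y).norm.pow 2).const_mul _
        · exact (((S.A p i).continuous.tendsto y).comp (tend y)).inner (tend y)
      filter_upwards [ih', hnice, hh0, hlim] with n h1 h2 h3 h4
      intro z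
      exact S.claim_alpha p (R n) h2 (R n y) (R n S.o') (idem n y)
        (by rw [h2.comm_J, hJy]) (idem n _) (hJh n h2) h3 i
        (fun j hj => h1 j (Finset.mem_range.2 hj)) h4 z
  -- (4) some B i does not commute
  have hnon : ∀ n, S.Nice p (R n) → R n S.o' ≠ 0 →
      ∃ i, ¬ ∀ y, S.B p i (R n y) = R n (S.B p i y) := by
    intro n h1 h2
    by_contra hcon
    push Not at hcon
    obtain ⟨W, hW, hRW⟩ := fin n
    set h := R n S.o' with hh
    have hRh : R n h = h := idem n _
    have hJ := hJh n h1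
    rw [← hh] at hJ
    have h3 := S.X_weak_fin (R n) h1.symm W hW hRW h
    have h4 : ∀ i, R n (S.X i h) = S.X i h := by
      intro i
      have h5 := hcon i h
      rw [hRh, S.B_apply_K p i hJ, map_sub, map_smul, hRh] at h5
      exact (sub_left_injective h5).symm
    have h5 : Tendsto (fun _ : ℕ => ‖h‖) atTop (𝓝 0) := by
      refine h3.congr ?_
      intro i
      rw [h4, norm_X]
    have h6 := tendsto_nhds_unique h5 tendsto_const_nhds
    exact h2 (norm_eq_zero.1 h6.symm)
  -- fix n1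
  obtain ⟨n1, hn1⟩ := eventually_atTop.1 (hnice.and (hh0.and hoo))
  obtain ⟨hN1, hh1, ho1⟩ := hn1 n1 le_rfl
  obtain ⟨W, hW, hRW⟩ := fin n1
  have hx0 : R n1 S.o ≠ 0 := by
    intro h
    rw [h, zero_sub, norm_neg, S.o_norm] at ho1
    norm_num at ho1
  have hJx : S.J (R n1 S.o) = R n1 S.o := by rw [hN1.comm_J, S.J_o]
  apply S.final_contradiction p (R n1) hN1 W hW hRW (R n1 S.o) (R n1 S.o') (idem n1 _) hJx
    (idem n1 _) (hJh n1 hN1) hh1
  intro M
  have hM : ∀ᶠ n in atTop, ∀ j ∈ Finset.range M, ∀ y, S.B p j (R n y) = R n (S.B p j y) :=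
    (Filter.eventually_all_finset _).2 fun j _ => hcomm j
  obtain ⟨n, hn, hnM⟩ := ((eventually_ge_atTop n1).and hM).exists
  obtain ⟨hN2, hh2, ho2⟩ := hn1 n hn
  classical
  have hex := hnon n hN2 hh2
  set i := Nat.find hex with hi
  have hi1 := Nat.find_spec hex
  have hi2 : ∀ j < i, ∀ y, S.B p j (R n y) = R n (S.B p j y) := by
    intro j hj
    have := Nat.find_min hex hj
    push Not at this
    exact this
  obtain ⟨k, hk1, hk2⟩ := S.step5 p (R n) hN2 (R n S.o') (idem n _) (hJh n hN2) hh2 ho2 i hi2 hi1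
  refine ⟨2 * k + 1, ?_, hk2 (R n1 S.o) (nest n1 n hn _) hJx hx0⟩
  by_contra hcon
  apply hi1
  rw [← hi]
  exact hnM i (Finset.mem_range.2 (by omega))

end Sys

end Pool.Agent.Helper640.PiBasis
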