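import Pool.Agent.Helper640.Pi.C

set_option autoImplicit false
set_option linter.deprecated false

open Filter Topology

namespace Pool.Agent.Helper640.PiBasis

namespace Param

noncomputable def th (k : ℕ) : ℝ := 1 / (k + 2)

noncomputable def al (k : ℕ) : ℝ := (1 - Real.cos (th k)) / 8

theorem th_pos (k : ℕ) : 0 < th k := by unfold th; positivity

theorem th_le (k : ℕ) : th k ≤ 1 / 2 := by
  unfold th
  apply one_div_le_one_div_of_le (by norm_num)
  have : (0 : ℝ) ≤ k := Nat.cast_nonneg k
  linarith

theorem pi_gt : (3 : ℝ) < Real.pi := Real.pi_gt_three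

theorem cos_lt (k : ℕ) : Real.cos (th k) < 1 := by
  have h := Real.cos_lt_cos_of_nonneg_of_le_pi (le_refl 0)
    (by have := th_le k; have := pi_gt; linarith : th k ≤ Real.pi) (th_pos k)
  rwa [Real.cos_zero] at h

theorem cos_ge (k : ℕ) : 1 / 2 ≤ Real.cos (th k) := by
  have h1 := Real.one_sub_sq_div_two_le_cos (x := th k)
  have h2 := th_pos k
  have h3 := th_le k
  nlinarith

theorem al_pos (k : ℕ) : 0 < al k := by
  unfold al; have := cos_lt k; linarith

theorem al_le (k : ℕ) : al k ≤ 1 / 16 := by
  unfold al; have := cos_ge k; linarith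

theorem cos_al (k : ℕ) : 1 - (al k) ^ 2 / 2 ≤ Real.cos (al k) :=
  Real.one_sub_sq_div_two_le_cos

noncomputable def ee : ℕ → ℝ
  | 0 => 1 / 8
  | (i + 1) => ee i * ((1 - Real.cos (th (i / 2))) / 4) / 12

theorem ee_pos (i : ℕ) : 0 < ee i := by
  induction i with
  | zero => norm_num [ee]
  | succ i ih =>
    have := cos_lt (i / 2)
    unfold ee
    apply div_pos (mul_pos ih (by linarith)) (by norm_num)

theorem ee_succ_le (i : ℕ) : ee (i + 1) ≤ ee i * (1 / 2) := by
  have h1 := ee_pos i
  have h2 := cos_ge (i / 2)
  rw [show ee (i + 1) = ee i * ((1 - Real.cos (th (i / 2))) / 4) / 12 from rfl]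
  nlinarith

theorem ee_anti : Antitone ee := by
  apply antitone_nat_of_succ_le
  intro i
  have h1 := ee_pos i
  have h2 := ee_succ_le i
  linarith

theorem ee_le_pow (i : ℕ) : ee i ≤ (1 / 2) ^ i := by
  induction i with
  | zero => norm_num [ee]
  | succ i ih =>
    have := ee_succ_le i
    rw [pow_succ]
    linarith

noncomputable def par : Par where
  a k := Real.cos (th k)
  b k := Real.sin (th k)
  a' k := Real.cos (th k + al k)
  b' k := Real.sin (th k + al k)
  c k := Real.cos (al k)
  e := ee
  ab k := Real.cos_sq_add_sin_sq _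
  ab' k := Real.cos_sq_add_sin_sq _
  c_def k := by
    rw [← Real.cos_sub]
    rw [show th k - (th k + al k) = - al k by ring, Real.cos_neg]
  a_lt := cos_lt
  a_nonneg k := by have := cos_ge k; linarith
  a'_lt k := by
    have h1 := th_pos k
    have h2 := th_le k
    have h3 := al_pos k
    have h4 := al_le k
    have h := Real.cos_lt_cos_of_nonneg_of_le_pi (le_refl 0)
      (by have := pi_gt; linarith : th k + al k ≤ Real.pi) (by linarith)
    rwa [Real.cos_zero] at h
  a'_ge k := by
    have h0 := Real.one_sub_sq_div_two_le_cos (x := th k + al k)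
    have h1 := th_pos k
    have h2 := th_le k
    have h3 := al_pos k
    have h4 := al_le k
    nlinarith
  det k := by
    have h3 := al_pos k
    have h4 := al_le k
    have h : Real.cos (th k) * Real.sin (th k + al k) - Real.cos (th k + al k) * Real.sin (th k)
        = Real.sin (al k) := by
      have := Real.sin_sub (th k + al k) (th k)
      rw [add_sub_cancel_left] at this
      rw [this]; ring
    rw [h]
    exact (Real.sin_pos_of_pos_of_lt_pi h3 (by have := pi_gt; linarith)).ne'
  c_ge k := by
    have h1 := th_pos k
    have h2 := th_le k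
    have h3 := al_pos k
    have h4 := al_le k
    exact Real.cos_le_cos_of_nonneg_of_le_pi h3.le (by have := pi_gt; linarith) (by linarith)
  c_gt k := by
    have h3 := al_pos k
    have h4 := al_le k
    have h5 := cos_al k
    have h6 : 1 - Real.cos (th k) = 8 * al k := by unfold al; ring
    nlinarith
  key k := by
    have h3 := al_pos k
    have h4 := al_le k
    have h5 := cos_al k
    have h6 : 1 - Real.cos (th k) = 8 * al k := by unfold al; ring
    have h7 := Real.abs_cos_sub_cos_le (th k) (th k + al k)
    have h8 := Real.abs_sin_sub_sin_le (th k) (th k + al k)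
    have h9 : |th k - (th k + al k)| = al k := by
      rw [show th k - (th k + al k) = - al k by ring, abs_neg, abs_of_pos h3]
    rw [h9] at h7 h8
    nlinarith
  a_tend := by
    have h1 : Tendsto th atTop (𝓝 0) := by
      have := tendsto_one_div_add_atTop_nhds_zero_nat (𝕜 := ℝ)
      have h2 := this.comp (tendsto_add_atTop_nat 1)
      refine h2.congr ?_
      intro k
      simp only [Function.comp, th]
      push_cast
      ring
    have := (Real.continuous_cos.tendsto 0).comp h1
    rwa [Real.cos_zero] at this
  b_tend := by
    have h1 : Tendsto th atTop (𝓝 0) := by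
      have := tendsto_one_div_add_atTop_nhds_zero_nat (𝕜 := ℝ)
      have h2 := this.comp (tendsto_add_atTop_nat 1)
      refine h2.congr ?_
      intro k
      simp only [Function.comp, th]
      push_cast
      ring
    have := (Real.continuous_sin.tendsto 0).comp h1
    rwa [Real.sin_zero] at this
  e_pos := ee_pos
  e_le i := by
    have := ee_anti (Nat.zero_le i)
    have h : ee 0 = 1 / 8 := rfl
    rwa [h] at this
  e_lt i j hij := by
    have h1 := ee_anti (show i + 1 ≤ j from hij)
    have h2 : 12 * ee (i + 1) = ee i * ((1 - Real.cos (th (i / 2))) / 4) := by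
      rw [show ee (i + 1) = ee i * ((1 - Real.cos (th (i / 2))) / 4) / 12 from rfl]
      ring
    rw [← h2]
    linarith
  e_tend := by
    apply squeeze_zero (fun i => (ee_pos i).le) ee_le_pow
    exact tendsto_pow_atTop_nhds_zero_of_lt_one (by norm_num) (by norm_num)

end Param

end Pool.Agent.Helper640.PiBasis
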