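import Pool.Agent.Helper640.Pi.C

set_option autoImplicit false
set_option linter.deprecated false

open Filter Topology
open scoped ENNReal symmDiff

namespace Pool.Agent.Helper640.PiBasis

namespace Model

section Gen

variable {ι G : Type} [NormedAddCommGroup G] [InnerProductSpace ℝ G]

theorem norm_sq_tsum (x : lp (fun _ : ι => G) 2) : ‖x‖ ^ 2 = ∑' i, ‖x i‖ ^ 2 := by
  rw [← real_inner_self_eq_norm_sq, lp.inner_eq_tsum]
  simp only [real_inner_self_eq_norm_sq]

theorem summable_sq (x : lp (fun _ : ι => G) 2) : Summable (fun i => ‖x i‖ ^ 2) := by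
  have := lp.summable_inner (𝕜 := ℝ) x x
  simpa only [real_inner_self_eq_norm_sq] using this

omit [InnerProductSpace ℝ G] in
theorem mem_of_summable {f : ι → G} (h : Summable (fun i => ‖f i‖ ^ 2)) : Memℓp f 2 := by
  rw [memℓp_gen_iff (by norm_num)]
  refine h.congr ?_
  intro i
  rw [ENNReal.toReal_ofNat, Real.rpow_ofNat]

theorem mem_op (w : ι → ℝ) (σ : ι ≃ ι) (hw : ∀ i, |w i| ≤ 1) (x : lp (fun _ : ι => G) 2) :
    Memℓp (fun i => w i • x (σ i)) 2 := by
  apply mem_of_summable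
  have h1 : Summable (fun i => ‖x (σ i)‖ ^ 2) := (σ.summable_iff (f := fun i => ‖x i‖ ^ 2)).2
    (summable_sq x)
  apply Summable.of_nonneg_of_le _ _ h1
  · intro i; positivity
  · intro i
    rw [norm_smul, mul_pow, Real.norm_eq_abs]
    have h2 := hw i
    have h3 := abs_nonneg (w i)
    have h4 : |w i| ^ 2 ≤ 1 := by nlinarith
    nlinarith [sq_nonneg ‖x (σ i)‖]

/-- The operator (U x) i = w i • x (σ i). -/
noncomputable def op (w : ι → ℝ) (σ : ι ≃ ι) (hw : ∀ i, |w i| ≤ 1) :
    lp (fun _ : ι => G) 2 →L[ℝ] lp (fun _ : ι => G) 2 :=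
  LinearMap.mkContinuous
    { toFun := fun x => ⟨fun i => w i • x (σ i), mem_op w σ hw x⟩
      map_add' := by
        intro x y
        ext i
        exact smul_add (w i) (x (σ i)) (y (σ i))
      map_smul' := by
        intro c x
        ext i
        exact smul_comm (w i) c (x (σ i)) } 1 (by
    intro x
    rw [one_mul]
    have h : ‖(⟨fun i => w i • x (σ i), mem_op w σ hw x⟩ : lp (fun _ : ι => G) 2)‖ ^ 2 ≤
        ‖x‖ ^ 2 := by
      rw [norm_sq_tsum, norm_sq_tsum]
      simp only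
      have h1 : Summable (fun i => ‖x (σ i)‖ ^ 2) := (σ.summable_iff (f := fun i => ‖x i‖ ^ 2)).2
        (summable_sq x)
      have h5 : ∑' i, ‖w i • x (σ i)‖ ^ 2 ≤ ∑' i, ‖x (σ i)‖ ^ 2 := by
        apply Summable.tsum_le_tsum _ _ h1
        · intro i
          rw [norm_smul, mul_pow, Real.norm_eq_abs]
          have h2 := hw i
          have h3 := abs_nonneg (w i)
          have h4 : |w i| ^ 2 ≤ 1 := by nlinarith
          nlinarith [sq_nonneg ‖x (σ i)‖]
        · exact summable_sq (⟨fun i => w i • x (σ i), mem_op w σ hw x⟩ : lp (fun _ : ι => G) 2)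
      refine h5.trans ?_
      rw [σ.tsum_eq (fun i => ‖x i‖ ^ 2)]
    exact (pow_le_pow_iff_left₀ (norm_nonneg _) (norm_nonneg _) two_ne_zero).1 h)

theorem op_apply (w : ι → ℝ) (σ : ι ≃ ι) (hw : ∀ i, |w i| ≤ 1) (x : lp (fun _ : ι => G) 2)
    (i : ι) : op w σ hw x i = w i • x (σ i) := rfl

theorem op_symm (w : ι → ℝ) (σ : ι ≃ ι) (hw : ∀ i, |w i| ≤ 1) (hσ : ∀ i, σ (σ i) = i)
    (hwσ : ∀ i, w (σ i) = w i) (x y : lp (fun _ : ι => G) 2) :
    inner ℝ (op w σ hw x) y = inner ℝ x (op w σ hw y) := by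
  rw [lp.inner_eq_tsum, lp.inner_eq_tsum, ← σ.tsum_eq]
  apply tsum_congr
  intro i
  rw [op_apply, op_apply, hσ, hwσ, inner_smul_left, inner_smul_right, RCLike.conj_to_real]

end Gen

variable {G : Type} [NormedAddCommGroup G] [InnerProductSpace ℝ G]

abbrev I : Type := Bool × Finset ℕ

/-- flipping j -/
def fl (j : ℕ) : I ≃ I where
  toFun i := (i.1, i.2 ∆ {j})
  invFun i := (i.1, i.2 ∆ {j})
  left_inv i := by simp
  right_inv i := by simp

theorem fl_fl (j : ℕ) (i : I) : fl j (fl j i) = i := (fl j).left_inv i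

theorem fl_comm (j k : ℕ) (i : I) : fl j (fl k i) = fl k (fl j i) := by
  simp only [fl, Equiv.coe_fn_mk]
  rw [symmDiff_right_comm]

noncomputable def wJ (i : I) : ℝ := if i.1 = true then 1 else -1
noncomputable def wZ (j : ℕ) (i : I) : ℝ := if j ∈ i.2 then -1 else 1
noncomputable def wQ (m : ℕ) (i : I) : ℝ := if i.2 ⊆ Finset.range m then 1 else 0

theorem wJ_le (i : I) : |wJ i| ≤ 1 := by unfold wJ; split_ifs <;> simp
theorem wZ_le (j : ℕ) (i : I) : |wZ j i| ≤ 1 := by unfold wZ; split_ifs <;> simp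
theorem wQ_le (m : ℕ) (i : I) : |wQ m i| ≤ 1 := by unfold wQ; split_ifs <;> simp

noncomputable def J : lp (fun _ : I => G) 2 →L[ℝ] lp (fun _ : I => G) 2 :=
  op wJ (Equiv.refl I) wJ_le
noncomputable def X (j : ℕ) : lp (fun _ : I => G) 2 →L[ℝ] lp (fun _ : I => G) 2 :=
  op (fun _ => 1) (fl j) (by simp)
noncomputable def Z (j : ℕ) : lp (fun _ : I => G) 2 →L[ℝ] lp (fun _ : I => G) 2 :=
  op (wZ j) (Equiv.refl I) (wZ_le j)
noncomputable def Q (m : ℕ) : lp (fun _ : I => G) 2 →L[ℝ] lp (fun _ : I => G) 2 :=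
  op (wQ m) (Equiv.refl I) (wQ_le m)

theorem J_ap (x : lp (fun _ : I => G) 2) (i : I) : J x i = wJ i • x i := rfl
theorem X_ap (j : ℕ) (x : lp (fun _ : I => G) 2) (i : I) : X j x i = x (fl j i) := by
  unfold X; rw [op_apply, one_smul]
theorem Z_ap (j : ℕ) (x : lp (fun _ : I => G) 2) (i : I) : Z j x i = wZ j i • x i := rfl
theorem Q_ap (m : ℕ) (x : lp (fun _ : I => G) 2) (i : I) : Q m x i = wQ m i • x i := rfl

theorem wJ_fl (j : ℕ) (i : I) : wJ (fl j i) = wJ i := rfl

theorem mem_fl (j k : ℕ) (i : I) : k ∈ (fl j i).2 ↔ (k ∈ i.2 ∧ k ≠ j) ∨ (k = j ∧ k ∉ i.2) := by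
  simp only [fl, Equiv.coe_fn_mk, Finset.mem_symmDiff, Finset.mem_singleton]

theorem wZ_fl (j k : ℕ) (h : j ≠ k) (i : I) : wZ k (fl j i) = wZ k i := by
  unfold wZ
  have : k ∈ (fl j i).2 ↔ k ∈ i.2 := by
    rw [mem_fl]
    constructor
    · rintro (h1 | h1)
      · exact h1.1
      · exact absurd h1.1.symm h
    · intro h1; exact Or.inl ⟨h1, Ne.symm h⟩
  simp only [this]

theorem wZ_fl_same (j : ℕ) (i : I) : wZ j (fl j i) = - wZ j i := by
  unfold wZ
  have : j ∈ (fl j i).2 ↔ j ∉ i.2 := by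
    rw [mem_fl]
    simp
  by_cases h : j ∈ i.2
  · rw [if_neg (by rw [this]; exact fun h' => h' h), if_pos h]; norm_num
  · rw [if_pos (by rw [this]; exact h), if_neg h]

theorem wQ_fl (m j : ℕ) (h : j < m) (i : I) : wQ m (fl j i) = wQ m i := by
  unfold wQ
  have : (fl j i).2 ⊆ Finset.range m ↔ i.2 ⊆ Finset.range m := by
    constructor
    · intro h1 k hk
      by_cases hkj : k = j
      · rw [hkj]; exact Finset.mem_range.2 h
      · exact h1 ((mem_fl j k i).2 (Or.inl ⟨hk, hkj⟩))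
    · intro h1 k hk
      rcases (mem_fl j k i).1 hk with h2 | h2
      · exact h1 h2.1
      · rw [h2.1]; exact Finset.mem_range.2 h
  simp only [this]

/-- the finite set of coordinates of Q m -/
noncomputable def Fm (m : ℕ) : Finset I := Finset.univ ×ˢ (Finset.range m).powerset

theorem mem_Fm (m : ℕ) (i : I) : i ∈ Fm m ↔ i.2 ⊆ Finset.range m := by
  unfold Fm
  simp

theorem Q_eq_sum (m : ℕ) (x : lp (fun _ : I => G) 2) :
    Q m x = ∑ i ∈ Fm m, lp.single 2 i (x i) := by
  ext i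
  rw [Q_ap, lp.coeFn_sum, Finset.sum_apply]
  simp only [lp.single_apply]
  rw [Finset.sum_pi_single]
  unfold wQ
  simp only [mem_Fm]
  split_ifs <;> simp

theorem Fm_tend : Tendsto Fm atTop atTop := by
  apply tendsto_atTop_finset_of_monotone
  · intro m n hmn i hi
    rw [mem_Fm] at *
    exact hi.trans (Finset.range_mono hmn)
  · intro i
    obtain ⟨n, hn⟩ := Finset.exists_nat_subset_range i.2
    exact ⟨n, (mem_Fm n i).2 hn⟩

theorem Q_tend (x : lp (fun _ : I => G) 2) : Tendsto (fun m => Q m x) atTop (𝓝 x) := by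
  have h1 : HasSum (fun i : I => (lp.single 2 i (x i) : lp (fun _ : I => G) 2)) x :=
    lp.hasSum_single (by norm_num) x
  have h2 := h1.comp Fm_tend
  refine h2.congr ?_
  intro m
  exact (Q_eq_sum m x).symm

theorem Q_fin [FiniteDimensional ℝ G] (m : ℕ) : FiniteDimensional ℝ
    (LinearMap.range ((Q m : lp (fun _ : I => G) 2 →L[ℝ] lp (fun _ : I => G) 2) :
      lp (fun _ : I => G) 2 →ₗ[ℝ] lp (fun _ : I => G) 2)) := by
  let ρ : LinearMap.range ((Q m : lp (fun _ : I => G) 2 →L[ℝ] lp (fun _ : I => G) 2) :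
      lp (fun _ : I => G) 2 →ₗ[ℝ] lp (fun _ : I => G) 2) →ₗ[ℝ] (Fm m → G) :=
    { toFun := fun y i => (y : lp (fun _ : I => G) 2) (i : I)
      map_add' := fun x y => by ext i; simp
      map_smul' := fun c x => by ext i; simp }
  apply FiniteDimensional.of_injective ρ
  rintro ⟨y, z, rfl⟩ ⟨y', z', rfl⟩ h
  apply Subtype.ext
  change Q m z = Q m z'
  ext i
  by_cases hi : i ∈ Fm m
  · have := congrFun h ⟨i, hi⟩
    exact this
  · rw [Q_ap, Q_ap]
    unfold wQ
    rw [mem_Fm] at hi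
    rw [if_neg hi, zero_smul, zero_smul]

theorem wJ_sq (i : I) : wJ i * wJ i = 1 := by unfold wJ; split_ifs <;> norm_num
theorem wZ_sq (j : ℕ) (i : I) : wZ j i * wZ j i = 1 := by unfold wZ; split_ifs <;> norm_num
theorem wQ_sq (j : ℕ) (i : I) : wQ j i * wQ j i = wQ j i := by unfold wQ; split_ifs <;> norm_num

noncomputable def sys [FiniteDimensional ℝ G] (e : G) (he : ‖e‖ = 1) :
    Sys (lp (fun _ : I => G) 2) where
  J := J
  X := X
  Z := Z
  Q := Q
  o := lp.single 2 (true, ∅) e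
  o' := lp.single 2 (false, ∅) e
  J_symm := op_symm _ _ _ (fun _ => rfl) (fun _ => rfl)
  X_symm j := op_symm _ _ _ (fl_fl j) (fun _ => rfl)
  Z_symm j := op_symm _ _ _ (fun _ => rfl) (fun _ => rfl)
  Q_symm m := op_symm _ _ _ (fun _ => rfl) (fun _ => rfl)
  J_J := by
    ext x i
    simp only [ContinuousLinearMap.mul_apply, ContinuousLinearMap.one_apply, J_ap, smul_smul,
      wJ_sq, one_smul]
  X_X j := by
    ext x i
    simp only [ContinuousLinearMap.mul_apply, ContinuousLinearMap.one_apply, X_ap, fl_fl]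
  Z_Z j := by
    ext x i
    simp only [ContinuousLinearMap.mul_apply, ContinuousLinearMap.one_apply, Z_ap, smul_smul,
      wZ_sq, one_smul]
  Q_Q j := by
    ext x i
    simp only [ContinuousLinearMap.mul_apply, Q_ap, smul_smul, wQ_sq]
  J_X j := by
    ext x i
    simp only [ContinuousLinearMap.mul_apply, X_ap, J_ap, wJ_fl]
  J_Z j := by
    ext x i
    simp only [ContinuousLinearMap.mul_apply, Z_ap, J_ap, smul_smul, mul_comm]
  J_Q j := by
    ext x i
    simp only [ContinuousLinearMap.mul_apply, Q_ap, J_ap, smul_smul, mul_comm]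
  X_comm j k := by
    ext x i
    simp only [ContinuousLinearMap.mul_apply, X_ap]
    rw [fl_comm]
  Z_comm j k := by
    ext x i
    simp only [ContinuousLinearMap.mul_apply, Z_ap, smul_smul, mul_comm]
  X_Z j k h := by
    ext x i
    simp only [ContinuousLinearMap.mul_apply, X_ap, Z_ap, wZ_fl j k h]
  X_Z_anti j := by
    ext x i
    simp only [ContinuousLinearMap.mul_apply, ContinuousLinearMap.neg_apply, X_ap, Z_ap,
      lp.coeFn_neg, Pi.neg_apply, wZ_fl_same, neg_smul]
  Q_X m j h := by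
    ext x i
    simp only [ContinuousLinearMap.mul_apply, X_ap, Q_ap, wQ_fl m j h]
  Q_Z m j _ := by
    ext x i
    simp only [ContinuousLinearMap.mul_apply, Z_ap, Q_ap, smul_smul, mul_comm]
  Z_Q m j x h := by
    ext i
    rw [Z_ap, Q_ap]
    unfold wQ wZ
    by_cases h1 : i.2 ⊆ Finset.range m
    · have : j ∉ i.2 := fun h2 => by
        have := Finset.mem_range.1 (h1 h2)
        omega
      rw [if_neg this, one_smul]
    · rw [if_neg h1, zero_smul, smul_zero]
  X_Q m j x y h := by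
    rw [lp.inner_eq_tsum]
    refine (tsum_congr (fun i => ?_)).trans tsum_zero
    rw [X_ap, Q_ap, Q_ap]
    unfold wQ
    by_cases h1 : i.2 ⊆ Finset.range m
    · have h2 : ¬ (fl j i).2 ⊆ Finset.range m := by
        intro h3
        have h4 : j ∉ i.2 := fun h2 => by
          have := Finset.mem_range.1 (h1 h2)
          omega
        have h5 : j ∈ (fl j i).2 := (mem_fl j j i).2 (Or.inr ⟨rfl, h4⟩)
        have := Finset.mem_range.1 (h3 h5)
        omega
      rw [if_neg h2, zero_smul, inner_zero_left]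
    · rw [if_neg h1, zero_smul, inner_zero_right]
  Q_fin := Q_fin
  Q_tend := Q_tend
  o_norm := by rw [lp.norm_single (by norm_num), he]
  o'_norm := by rw [lp.norm_single (by norm_num), he]
  J_o := by
    ext i
    rw [J_ap, lp.single_apply]
    by_cases h : i = (true, ∅)
    · rw [h]; simp [wJ]
    · rw [Pi.single_eq_of_ne h, smul_zero]
  J_o' := by
    ext i
    rw [J_ap, lp.coeFn_neg, Pi.neg_apply, lp.single_apply]
    by_cases h : i = (false, ∅)
    · rw [h]; simp [wJ]
    · rw [Pi.single_eq_of_ne h, smul_zero, neg_zero]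
  Q_o := by
    ext i
    rw [Q_ap, lp.single_apply]
    by_cases h : i = (true, ∅)
    · rw [h]; simp [wQ]
    · rw [Pi.single_eq_of_ne h, smul_zero]

end Model

end Pool.Agent.Helper640.PiBasis
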