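import Pool.Agent.Helper640.Pi.B
import Pool.Agent.Helper640.Pi.M
import Pool.Agent.Helper640.Pi.G

set_option autoImplicit false
set_option linter.deprecated false

open Filter Topology

namespace Pool.Agent.Helper640.PiBasis

open Model

section

variable {𝕜 G : Type} [RCLike 𝕜] [NormedAddCommGroup G] [InnerProductSpace ℝ G]
  [NormedSpace 𝕜 G] [IsScalarTower ℝ 𝕜 G]

theorem hom_op (w : I → ℝ) (σ : I ≃ I) (hw : ∀ i, |w i| ≤ 1) :
    Hom 𝕜 (op (G := G) w σ hw) := by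
  intro c x
  ext i
  have h := smul_comm (w i) c (x (σ i))
  exact h

theorem main_G [FiniteDimensional ℝ G]
    (hsc : ∀ (c : 𝕜) (x y : G), inner ℝ (c • x) (c • y) = ‖c‖ ^ 2 * inner ℝ x y)
    (e : G) (he : ‖e‖ = 1) :
    ∃ (E : Type) (_ : NormedAddCommGroup E) (_ : NormedSpace 𝕜 E), CompleteSpace E ∧
      (∃ u : ℕ → E →L[𝕜] E, Big 𝕜 E 1 u) ∧ ¬ ∃ u : ℕ → E →L[𝕜] E, Small 𝕜 E 1 u := by
  have hcG : CompleteSpace G := FiniteDimensional.complete ℝ G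
  apply main (𝕜 := 𝕜) (sys e he) Param.par
  · exact hom_op wJ (Equiv.refl I) wJ_le
  · intro j; exact hom_op (fun _ => 1) (fl j) (by simp)
  · intro j; exact hom_op (wZ j) (Equiv.refl I) (wZ_le j)
  · intro j; exact hom_op (wQ j) (Equiv.refl I) (wQ_le j)
  · intro c x y
    rw [lp.inner_eq_tsum, lp.inner_eq_tsum, ← tsum_mul_left]
    apply tsum_congr
    intro i
    exact hsc c (x i) (y i)

end

theorem main_final (𝕜 : Type) [RCLike 𝕜] :
    ∃ (E : Type) (_ : NormedAddCommGroup E) (_ : NormedSpace 𝕜 E), CompleteSpace E ∧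
      (∃ u : ℕ → E →L[𝕜] E, Big 𝕜 E 1 u) ∧ ¬ ∃ u : ℕ → E →L[𝕜] E, Small 𝕜 E 1 u := by
  apply main_G (𝕜 := 𝕜) (G := 𝕜) _ 1 (by simp)
  intro c x y
  change RCLike.re (inner 𝕜 (c • x) (c • y)) = _ * RCLike.re (inner 𝕜 x y)
  rw [inner_smul_left, inner_smul_right, ← mul_assoc, RCLike.conj_mul]
  norm_cast
  rw [RCLike.re_ofReal_mul]

end Pool.Agent.Helper640.PiBasis
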